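import Pool.Agent.Helper58_SA.NumRoot

/-! Module NUMKICK: effect of unit pauses on the modes. -/

namespace SA.H58

open Real Complex

/-! ### real case -/

theorem stepR {x g g' κ w xl xu gl gu kl ku wl wu L U : ℝ} (hrec : g = κ - w + x * g')
    (hx1 : xl ≤ x) (hx2 : x ≤ xu) (hxl : 0 < xl) (hg1 : gl ≤ g) (hg2 : g ≤ gu)
    (hk1 : kl ≤ κ) (hk2 : κ ≤ ku) (hw1 : wl ≤ w) (hw2 : w ≤ wu) (hL : 0 ≤ L) (hU : 0 ≤ U)
    (h1 : xu * L ≤ gl + wl - ku) (h2 : gu + wu - kl ≤ xl * U) : L ≤ g' ∧ g' ≤ U := by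
  have hx0 : 0 < x := lt_of_lt_of_le hxl hx1
  have hL' : x * L ≤ x * g' := by
    have : x * L ≤ xu * L := mul_le_mul_of_nonneg_right hx2 hL
    linarith
  have hU' : x * g' ≤ x * U := by
    have : xl * U ≤ x * U := mul_le_mul_of_nonneg_right hx1 hU
    linarith
  exact ⟨le_of_mul_le_mul_left hL' hx0, le_of_mul_le_mul_left hU' hx0⟩

/-- values for x0, scale 10^9 -/
def GX : List ℤ := [0, 1303477758927, 2523556536017, 3663294625133, 4725638170547, 5713425279542,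
  6629389984200, 7476166057898, 8256290691867, 8972208036914, 9626272615281]
/-- values for z, scale 10^6 -/
def GZ : List ℤ := [0, 780864162, 1545613824, 2293797546, 3024951239, 3738597816, 4434246823,
  5111394067, 5769521229, 6408095470, 7026569025]

theorem gam_rec {F : Type*} [Field F] (T x : F) (d : ℕ) (hd : d < 56) :
    gam T x (56 - d) = x / (x - 1) ^ 2 - (((56 - d : ℕ) : F)) * T + x * gam T x (56 - (d + 1)) := by
  obtain ⟨m, rfl⟩ : ∃ m, d = 55 - m := ⟨55 - d, by omega⟩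
  by_cases hm : m ≤ 55
  · have e1 : 56 - (55 - m) = m + 1 := by omega
    have e2 : 56 - (55 - m + 1) = m := by omega
    rw [e1, e2, gam]
    push_cast
    ring
  · have h0 : 55 - m = 0 := by omega
    rw [h0]
    simp only [Nat.sub_zero, zero_add]
    rw [show (56 : ℕ) - 1 = 55 by rfl, show (56 : ℕ) = 55 + 1 by rfl, gam]
    push_cast
    ring

theorem kx_num {T x0 z : ℝ} {th : ℂ} (h : Roots T x0 z th) :
    (716.370790243968 : ℝ) ≤ x0 / (x0 - 1) ^ 2 ∧ x0 / (x0 - 1) ^ 2 ≤ 716.370790243969 := by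
  obtain ⟨a1, a2⟩ := x0_num h
  have p1 : (0.0380665629991488825 : ℝ) ^ 2 ≤ (x0 - 1) ^ 2 :=
    pow_le_pow_left₀ (by norm_num) (by linarith) 2
  have p2 : (x0 - 1) ^ 2 ≤ (0.0380665629991488826 : ℝ) ^ 2 :=
    pow_le_pow_left₀ (by linarith) (by linarith) 2
  have hp : 0 < (x0 - 1) ^ 2 := lt_of_lt_of_le (by norm_num) p1
  norm_num at p1 p2
  constructor
  · rw [le_div_iff₀ hp]; linarith
  · rw [div_le_iff₀ hp]; linarith

theorem kz_num {T x0 z : ℝ} {th : ℂ} (h : Roots T x0 z th) :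
    (1309.8827186 : ℝ) ≤ z / (z - 1) ^ 2 ∧ z / (z - 1) ^ 2 ≤ 1309.8827187 := by
  obtain ⟨a1, a2⟩ := z_num h
  have e : (z - 1) ^ 2 = (1 - z) ^ 2 := by ring
  have p1 : (0.02725110807696742658 : ℝ) ^ 2 ≤ (1 - z) ^ 2 :=
    pow_le_pow_left₀ (by norm_num) (by linarith) 2
  have p2 : (1 - z) ^ 2 ≤ (0.02725110807696742659 : ℝ) ^ 2 :=
    pow_le_pow_left₀ (by linarith) (by linarith) 2
  have hp : 0 < (1 - z) ^ 2 := lt_of_lt_of_le (by norm_num) p1
  norm_num at p1 p2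
  rw [e]
  constructor
  · rw [le_div_iff₀ hp]; linarith
  · rw [div_le_iff₀ hp]; linarith

theorem gx_num {T x0 z : ℝ} {th : ℂ} (hT1 : Tlo ≤ T) (hT2 : T ≤ Thi) (h : Roots T x0 z th)
    (d : ℕ) (hd : d ≤ 10) : ((GX.getD d 0 : ℝ) - 2 * d) / 10 ^ 9 ≤ gam T x0 (56 - d) ∧
      gam T x0 (56 - d) ≤ ((GX.getD d 0 : ℝ) + 2 * d) / 10 ^ 9 := by
  obtain ⟨t1, t2⟩ := T_num hT1 hT2
  obtain ⟨a1, a2⟩ := x0_num h
  obtain ⟨k1, k2⟩ := kx_num h
  induction d with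
  | zero => rw [Nat.sub_zero, h.x0_root]; norm_num [GX]
  | succ d ih =>
    obtain ⟨i1, i2⟩ := ih (by omega)
    have hrec := gam_rec T x0 d (by omega)
    have hd0 : (0 : ℝ) ≤ ((56 - d : ℕ) : ℝ) := Nat.cast_nonneg _
    refine stepR hrec a1 a2 (by norm_num) i1 i2 k1 k2
      (mul_le_mul_of_nonneg_left t1 hd0) (mul_le_mul_of_nonneg_left t2 hd0) ?_ ?_ ?_ ?_
    all_goals
      clear i1 i2 hrec hd0
      have hd' : d < 10 := by omega
      clear hd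
      interval_cases d <;> norm_num [GX]

theorem gz_num {T x0 z : ℝ} {th : ℂ} (hT1 : Tlo ≤ T) (hT2 : T ≤ Thi) (h : Roots T x0 z th)
    (d : ℕ) (hd : d ≤ 10) : ((GZ.getD d 0 : ℝ) - 2 * d) / 10 ^ 6 ≤ gam T z (56 - d) ∧
      gam T z (56 - d) ≤ ((GZ.getD d 0 : ℝ) + 2 * d) / 10 ^ 6 := by
  obtain ⟨t1, t2⟩ := T_num hT1 hT2
  obtain ⟨a1, a2⟩ := z_num h
  obtain ⟨k1, k2⟩ := kz_num h
  induction d with
  | zero => rw [Nat.sub_zero, h.z_root]; norm_num [GZ]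
  | succ d ih =>
    obtain ⟨i1, i2⟩ := ih (by omega)
    have hrec := gam_rec T z d (by omega)
    have hd0 : (0 : ℝ) ≤ ((56 - d : ℕ) : ℝ) := Nat.cast_nonneg _
    refine stepR hrec a1 a2 (by norm_num) i1 i2 k1 k2
      (mul_le_mul_of_nonneg_left t1 hd0) (mul_le_mul_of_nonneg_left t2 hd0) ?_ ?_ ?_ ?_
    all_goals
      clear i1 i2 hrec hd0
      have hd' : d < 10 := by omega
      clear hd
      interval_cases d <;> norm_num [GZ]


theorem cd_num {T x0 z : ℝ} {th : ℂ} (hT1 : Tlo ≤ T) (hT2 : T ≤ Thi) (h : Roots T x0 z th)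
    (d : ℕ) (h1 : 1 ≤ d) (hd : d ≤ 10) : cdc T x0 d ≤ 0 ∧ - (8.73 / 10 ^ 6) * d ≤ x0 * cdc T x0 d := by
  obtain ⟨a1, a2⟩ := x0_num h
  obtain ⟨g1, g2⟩ := gx_num hT1 hT2 h d hd
  have hx0 : 0 < x0 := by linarith
  have hx1 : 0 ≤ x0 - 1 := by linarith
  set g := gam T x0 (56 - d) with hg
  have hg0 : 0 ≤ g := by
    refine le_trans ?_ g1
    clear_value g
    clear hg g1 g2
    interval_cases d <;> norm_num [GX]
  have e : x0 * cdc T x0 d = a0c * ((x0 - 1) * g) := by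
    unfold cdc
    rw [← hg]
    field_simp
  have ha : a0c < 0 := by unfold a0c; norm_num
  have ha' : (-1757546 : ℝ) / 10 ^ 13 ≤ a0c := by unfold a0c; norm_num
  have hm0 : 0 ≤ (x0 - 1) * g := mul_nonneg hx1 hg0
  have hm : (x0 - 1) * g ≤ 0.0380665629991488826 * (((GX.getD d 0 : ℝ) + 2 * d) / 10 ^ 9) :=
    mul_le_mul (by linarith) g2 hg0 (by norm_num)
  constructor
  · have h3 : x0 * cdc T x0 d ≤ 0 := by rw [e]; exact mul_nonpos_of_nonpos_of_nonneg ha.le hm0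
    by_contra hc
    push Not at hc
    have := mul_pos hx0 hc
    linarith
  · rw [e]
    have h4 : (-1757546 : ℝ) / 10 ^ 13 * (0.0380665629991488826 * (((GX.getD d 0 : ℝ) + 2 * d) / 10 ^ 9))
        ≤ a0c * ((x0 - 1) * g) := by
      calc (-1757546 : ℝ) / 10 ^ 13 * (0.0380665629991488826 * (((GX.getD d 0 : ℝ) + 2 * d) / 10 ^ 9))
          ≤ (-1757546 : ℝ) / 10 ^ 13 * ((x0 - 1) * g) := mul_le_mul_of_nonpos_left hm (by norm_num)
        _ ≤ _ := mul_le_mul_of_nonneg_right ha' hm0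
    refine le_trans ?_ h4
    clear_value g
    clear h4 hm hm0 hg0 hg g1 g2 e
    interval_cases d <;> norm_num [GX]

theorem cE_num {T x0 z : ℝ} {th : ℂ} (hT1 : Tlo ≤ T) (hT2 : T ≤ Thi) (h : Roots T x0 z th)
    (d : ℕ) (h1 : 1 ≤ d) (hd : d ≤ 10) :
    |x0 * cdc T x0 d + (cT.getD d 0 : ℝ) / 10 ^ 18| ≤ 1 / 10 ^ 15 := by
  obtain ⟨a1, a2⟩ := x0_num h
  obtain ⟨g1, g2⟩ := gx_num hT1 hT2 h d hd
  have hx0 : 0 < x0 := by linarith
  have hx1 : 0 ≤ x0 - 1 := by linarith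
  set g := gam T x0 (56 - d) with hg
  have hL0 : 0 ≤ ((GX.getD d 0 : ℝ) - 2 * d) / 10 ^ 9 := by
    clear_value g
    clear hg g1 g2
    interval_cases d <;> norm_num [GX]
  have hg0 : 0 ≤ g := hL0.trans g1
  have e : x0 * cdc T x0 d = a0c * ((x0 - 1) * g) := by
    unfold cdc
    rw [← hg]
    field_simp
  have hb1 : (-17575456958403374 : ℝ) / 10 ^ 23 ≤ a0c := by unfold a0c; norm_num
  have hb2 : a0c ≤ (-17575456958403373 : ℝ) / 10 ^ 23 := by unfold a0c; norm_num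
  have hm0 : 0 ≤ (x0 - 1) * g := mul_nonneg hx1 hg0
  have hm : (x0 - 1) * g ≤ 0.0380665629991488826 * (((GX.getD d 0 : ℝ) + 2 * d) / 10 ^ 9) :=
    mul_le_mul (by linarith) g2 hg0 (by norm_num)
  have hm' : 0.0380665629991488825 * (((GX.getD d 0 : ℝ) - 2 * d) / 10 ^ 9) ≤ (x0 - 1) * g :=
    mul_le_mul (by linarith) g1 hL0 (by linarith)
  have h4 : (-17575456958403374 : ℝ) / 10 ^ 23 * (0.0380665629991488826 * (((GX.getD d 0 : ℝ) + 2 * d) / 10 ^ 9))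
      ≤ a0c * ((x0 - 1) * g) := by
    calc (-17575456958403374 : ℝ) / 10 ^ 23 * (0.0380665629991488826 * (((GX.getD d 0 : ℝ) + 2 * d) / 10 ^ 9))
        ≤ (-17575456958403374 : ℝ) / 10 ^ 23 * ((x0 - 1) * g) := mul_le_mul_of_nonpos_left hm (by norm_num)
      _ ≤ _ := mul_le_mul_of_nonneg_right hb1 hm0
  have h5 : a0c * ((x0 - 1) * g) ≤ (-17575456958403373 : ℝ) / 10 ^ 23 *
      (0.0380665629991488825 * (((GX.getD d 0 : ℝ) - 2 * d) / 10 ^ 9)) := by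
    calc a0c * ((x0 - 1) * g) ≤ (-17575456958403373 : ℝ) / 10 ^ 23 * ((x0 - 1) * g) :=
        mul_le_mul_of_nonneg_right hb2 hm0
      _ ≤ _ := mul_le_mul_of_nonpos_left hm' (by norm_num)
  rw [e]
  refine abs_le.mpr ⟨?_, ?_⟩
  · refine le_trans ?_ (add_le_add_left h4 _)
    clear_value g
    clear h5 h4 hm hm' hm0 hg0 hg g1 g2 e
    interval_cases d <;> norm_num [GX, cT]
  · refine le_trans (add_le_add_left h5 _) ?_
    clear_value g
    clear h5 h4 hm hm' hm0 hg0 hg g1 g2 e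
    interval_cases d <;> norm_num [GX, cT]

theorem ze_num {T x0 z : ℝ} {th : ℂ} (hT1 : Tlo ≤ T) (hT2 : T ≤ Thi) (h : Roots T x0 z th)
    (d : ℕ) (h1 : 1 ≤ d) (hd : d ≤ 10) : zec T z d < 0 ∧ - (7.2 / 10 ^ 6) * d ≤ z * zec T z d := by
  obtain ⟨a1, a2⟩ := z_num h
  obtain ⟨g1, g2⟩ := gz_num hT1 hT2 h d hd
  have hx0 : 0 < z := by linarith
  have hx1 : 0 < 1 - z := by linarith
  set g := gam T z (56 - d) with hg
  have hg0 : 0 < g := by
    refine lt_of_lt_of_le ?_ g1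
    clear_value g
    clear hg g1 g2
    interval_cases d <;> norm_num [GZ]
  have e : z * zec T z d = - (azc * ((1 - z) * g)) := by
    unfold zec
    rw [← hg]
    field_simp
    ring
  have ha : 0 < azc := by unfold azc; norm_num
  have ha' : azc ≤ 3347312 / 10 ^ 13 := by unfold azc; norm_num
  have hm0 : 0 < (1 - z) * g := mul_pos hx1 hg0
  have hm : (1 - z) * g ≤ 0.02725110807696742659 * (((GZ.getD d 0 : ℝ) + 2 * d) / 10 ^ 6) :=
    mul_le_mul (by linarith) g2 hg0.le (by norm_num)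
  constructor
  · have h3 : z * zec T z d < 0 := by rw [e]; linarith [mul_pos ha hm0]
    by_contra hc
    push Not at hc
    have := mul_nonneg hx0.le hc
    linarith
  · rw [e]
    have h4 : azc * ((1 - z) * g)
        ≤ 3347312 / 10 ^ 13 * (0.02725110807696742659 * (((GZ.getD d 0 : ℝ) + 2 * d) / 10 ^ 6)) :=
      mul_le_mul ha' hm hm0.le (by norm_num)
    rw [neg_mul]
    refine neg_le_neg (h4.trans ?_)
    clear_value g
    clear h4 hm hm0 hg0 hg g1 g2 e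
    interval_cases d <;> norm_num [GZ]

/-! ### complex case -/

theorem stepC {th θ0 g g' κ κ0 G G' : ℂ} {w w0 : ℝ} {e ρ e' dk dw dt M : ℝ}
    (h1 : 1 ≤ ‖th‖) (hrec : g = κ - (w : ℂ) + th * g') (hg : ‖g - G‖ ≤ e) (hκ : ‖κ - κ0‖ ≤ dk)
    (hw : |w - w0| ≤ dw) (hθ : ‖th - θ0‖ ≤ dt) (hG' : ‖G'‖ ≤ M)
    (hρ : ‖G + (w0 : ℂ) - κ0 - θ0 * G'‖ ≤ ρ) (he : e + dk + dw + ρ + dt * M ≤ e') :
    ‖g' - G'‖ ≤ e' := by
  have e1 : th * (g' - G') = (g - G) - (κ - κ0) + ((w - w0 : ℝ) : ℂ)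
      + (G + (w0 : ℂ) - κ0 - θ0 * G') - (th - θ0) * G' := by
    rw [hrec]; push_cast; ring
  have hdt : 0 ≤ dt := (norm_nonneg _).trans hθ
  have e2 : ‖th * (g' - G')‖ ≤ e + dk + dw + ρ + dt * M := by
    rw [e1]
    have b1 : ‖(th - θ0) * G'‖ ≤ dt * M := by
      rw [norm_mul]; exact mul_le_mul hθ hG' (norm_nonneg _) hdt
    have b2 : ‖((w - w0 : ℝ) : ℂ)‖ ≤ dw := by
      rw [Complex.norm_real, Real.norm_eq_abs]; exact hw
    calc _ ≤ ‖(g - G) - (κ - κ0) + ((w - w0 : ℝ) : ℂ) + (G + (w0 : ℂ) - κ0 - θ0 * G')‖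
          + ‖(th - θ0) * G'‖ := norm_sub_le _ _
      _ ≤ ‖(g - G) - (κ - κ0) + ((w - w0 : ℝ) : ℂ)‖ + ‖G + (w0 : ℂ) - κ0 - θ0 * G'‖
          + ‖(th - θ0) * G'‖ := by gcongr; exact norm_add_le _ _
      _ ≤ ‖(g - G) - (κ - κ0)‖ + ‖((w - w0 : ℝ) : ℂ)‖ + ‖G + (w0 : ℂ) - κ0 - θ0 * G'‖
          + ‖(th - θ0) * G'‖ := by gcongr; exact norm_add_le _ _
      _ ≤ ‖g - G‖ + ‖κ - κ0‖ + ‖((w - w0 : ℝ) : ℂ)‖ + ‖G + (w0 : ℂ) - κ0 - θ0 * G'‖
          + ‖(th - θ0) * G'‖ := by gcongr; exact norm_sub_le _ _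
      _ ≤ _ := by gcongr
  rw [norm_mul] at e2
  have : ‖g' - G'‖ ≤ ‖th‖ * ‖g' - G'‖ := le_mul_of_one_le_left (norm_nonneg _) h1
  linarith

/-- approximations for theta, scale 10^12 -/
def GR : List ℤ := [0, 2025887239368653, 3897295451390953, 5592040665425359, 7092584067790583,
  8386000291731790, 9463868382809455, 10322092886829686, 10960663177170576, 11383359619828708,
  11597415472956456]
def GI : List ℤ := [0, -232977040761167, -701293359665697, -1375362884551931, -2224178734036741,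
  -3215950521777468, -4318709308468235, -5500872091520397, -6731759004317968, -7982057704430045,
  -9224230738803338]
noncomputable def GC (d : ℕ) : ℂ := ⟨(GR.getD d 0 : ℝ) / 10 ^ 12, (GI.getD d 0 : ℝ) / 10 ^ 12⟩
noncomputable def tc : ℂ := ⟨1.02948352879251378034, 0.13313337742947792797⟩
noncomputable def kc : ℂ := ⟨-47.167097022388441750, -29.867184417987020017⟩

theorem th_tc {T x0 z : ℝ} {th : ℂ} (h : Roots T x0 z th) : ‖th - tc‖ ≤ 2 / 10 ^ 20 := by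
  obtain ⟨⟨h1, h2⟩, h3, h4⟩ := th_num h
  refine (Complex.norm_le_abs_re_add_abs_im _).trans ?_
  have a1 : |(th - tc).re| ≤ 1 / 10 ^ 20 := by
    rw [Complex.sub_re]; unfold tc
    refine abs_le.mpr ⟨?_, ?_⟩
    · norm_num at h1 ⊢; linarith
    · norm_num at h2 ⊢; linarith
  have a2 : |(th - tc).im| ≤ 1 / 10 ^ 20 := by
    rw [Complex.sub_im]; unfold tc
    refine abs_le.mpr ⟨?_, ?_⟩
    · norm_num at h3 ⊢; linarith
    · norm_num at h4 ⊢; linarith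
  linarith

theorem kt_num {T x0 z : ℝ} {th : ℂ} (h : Roots T x0 z th) :
    ‖th / (th - 1) ^ 2 - kc‖ ≤ 1 / 10 ^ 12 := by
  have ht := th_tc h
  obtain ⟨⟨h1, h2⟩, h3, h4⟩ := th_num h
  have hlo : (0.136 : ℝ) ≤ ‖th - 1‖ := by
    refine le_of_sq_le_sq ?_ (norm_nonneg _)
    rw [← Complex.normSq_eq_norm_sq, Complex.normSq_apply]
    simp only [Complex.sub_re, Complex.sub_im, Complex.one_re, Complex.one_im, sub_zero]
    have a1 : (0.02948352879251378034 : ℝ) ^ 2 ≤ (th.re - 1) ^ 2 :=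
      pow_le_pow_left₀ (by norm_num) (by linarith) 2
    have b1 : (0.13313337742947792797 : ℝ) ^ 2 ≤ th.im ^ 2 := pow_le_pow_left₀ (by norm_num) h3 2
    nlinarith
  have hpos : 0 < ‖th - 1‖ := lt_of_lt_of_le (by norm_num) hlo
  have hne : th - 1 ≠ 0 := norm_pos_iff.mp hpos
  have e : (th / (th - 1) ^ 2 - kc) * (th - 1) ^ 2
      = (th - tc) + (tc - kc * (tc - 1) ^ 2) - kc * ((th - tc) * ((th - tc) + 2 * (tc - 1))) := by
    rw [sub_mul, div_mul_cancel₀ _ (pow_ne_zero 2 hne)]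
    ring
  have r1 : ‖tc - kc * (tc - 1) ^ 2‖ ≤ 1 / 10 ^ 17 := by
    refine (Complex.norm_le_abs_re_add_abs_im _).trans ?_
    have e1 : (tc - kc * (tc - 1) ^ 2).re = tc.re - (kc.re * ((tc.re - 1) ^ 2 - tc.im ^ 2)
        - kc.im * (2 * (tc.re - 1) * tc.im)) := by
      simp only [pow_two, Complex.sub_re, Complex.mul_re, Complex.mul_im, Complex.sub_im, Complex.one_re,
        Complex.one_im]
      ring
    have e2 : (tc - kc * (tc - 1) ^ 2).im = tc.im - (kc.re * (2 * (tc.re - 1) * tc.im)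
        + kc.im * ((tc.re - 1) ^ 2 - tc.im ^ 2)) := by
      simp only [pow_two, Complex.sub_re, Complex.mul_re, Complex.mul_im, Complex.sub_im, Complex.one_re,
        Complex.one_im]
      ring
    rw [e1, e2]
    unfold tc kc
    norm_num [abs_le]
  have k1 : ‖kc‖ ≤ 80 := by
    refine (Complex.norm_le_abs_re_add_abs_im _).trans ?_
    unfold kc; norm_num
  have t1 : ‖tc - 1‖ ≤ 0.2 := by
    refine (Complex.norm_le_abs_re_add_abs_im _).trans ?_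
    simp only [Complex.sub_re, Complex.sub_im, Complex.one_re, Complex.one_im, sub_zero]
    unfold tc; norm_num
  have b3 : ‖kc * ((th - tc) * ((th - tc) + 2 * (tc - 1)))‖ ≤ 80 * (2 / 10 ^ 20 * 0.5) := by
    rw [norm_mul, norm_mul]
    have : ‖th - tc + 2 * (tc - 1)‖ ≤ 0.5 := by
      refine (norm_add_le _ _).trans ?_
      rw [norm_mul]
      have h2' : ‖(2 : ℂ)‖ = 2 := by norm_num
      rw [h2']
      norm_num at ht t1 ⊢
      linarith
    gcongr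
  have b4 : ‖(th / (th - 1) ^ 2 - kc) * (th - 1) ^ 2‖ ≤ 2 / 10 ^ 17 := by
    rw [e]
    refine (norm_sub_le _ _).trans ?_
    have := norm_add_le (th - tc) (tc - kc * (tc - 1) ^ 2)
    have h6 : (2 / 10 ^ 20 + 1 / 10 ^ 17 + 80 * (2 / 10 ^ 20 * 0.5) : ℝ) ≤ 2 / 10 ^ 17 := by norm_num
    refine le_trans ?_ h6
    exact add_le_add (this.trans (add_le_add ht r1)) b3
  rw [norm_mul, norm_pow] at b4
  have hsq : (0.136 : ℝ) ^ 2 ≤ ‖th - 1‖ ^ 2 := pow_le_pow_left₀ (by norm_num) hlo 2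
  have h5 : ‖th / (th - 1) ^ 2 - kc‖ * 0.136 ^ 2 ≤ 2 / 10 ^ 17 :=
    le_trans (mul_le_mul_of_nonneg_left hsq (norm_nonneg _)) b4
  norm_num at h5 ⊢
  linarith


theorem GC_norm (d : ℕ) (hd : d ≤ 10) : ‖GC d‖ ≤ 21000 := by
  refine (Complex.norm_le_abs_re_add_abs_im _).trans ?_
  unfold GC
  interval_cases d <;> norm_num [GR, GI, abs_le]

theorem GC_res (d : ℕ) (hd : d < 10) :
    ‖GC d + ((((56 - d : ℕ) : ℝ) * 36.954776203547075292 : ℝ) : ℂ) - kc - tc * GC (d + 1)‖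
      ≤ 5 / 10 ^ 12 := by
  refine (Complex.norm_le_abs_re_add_abs_im _).trans ?_
  simp only [Complex.sub_re, Complex.sub_im, Complex.add_re, Complex.add_im, Complex.mul_re,
    Complex.mul_im, Complex.ofReal_re, Complex.ofReal_im]
  unfold GC kc tc
  interval_cases d <;> norm_num [GR, GI, abs_le]

theorem g_num {T x0 z : ℝ} {th : ℂ} (hT1 : Tlo ≤ T) (hT2 : T ≤ Thi) (h : Roots T x0 z th)
    (d : ℕ) (hd : d ≤ 10) : ‖gam (T : ℂ) th (56 - d) - GC d‖ ≤ d * (1 / 10 ^ 11) := by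
  obtain ⟨t1, t2⟩ := T_num hT1 hT2
  have ht := th_tc h
  have hk := kt_num h
  obtain ⟨n1, n2⟩ := norm_num_th h
  induction d with
  | zero =>
    rw [Nat.sub_zero, h.th_root]
    have : GC 0 = 0 := by
      unfold GC; apply Complex.ext <;> norm_num [GR, GI]
    rw [this]; norm_num
  | succ d ih =>
    have i1 := ih (by omega)
    have hrec := gam_rec (T : ℂ) th d (by omega)
    have hd0 : (0 : ℝ) ≤ ((56 - d : ℕ) : ℝ) := Nat.cast_nonneg _
    have hd1 : ((56 - d : ℕ) : ℝ) ≤ 56 := by exact_mod_cast (by omega : 56 - d ≤ 56)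
    have hw : |((56 - d : ℕ) : ℝ) * T - ((56 - d : ℕ) : ℝ) * 36.954776203547075292| ≤ 56 * (1 / 10 ^ 18) := by
      rw [← mul_sub, abs_mul, abs_of_nonneg hd0]
      have : |T - 36.954776203547075292| ≤ 1 / 10 ^ 18 := by
        refine abs_le.mpr ⟨?_, ?_⟩
        · norm_num at t1 ⊢; linarith
        · norm_num at t2 ⊢; linarith
      exact mul_le_mul hd1 this (abs_nonneg _) (by norm_num)
    have hrec' : gam (T : ℂ) th (56 - d) = th / (th - 1) ^ 2 - (((((56 - d : ℕ) : ℝ) * T : ℝ)) : ℂ)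
        + th * gam (T : ℂ) th (56 - (d + 1)) := by
      rw [hrec]; push_cast; ring
    refine stepC (by linarith) hrec' i1 hk hw ht (GC_norm (d + 1) hd) (GC_res d (by omega)) ?_
    push_cast
    norm_num
    linarith

theorem zd_num {T x0 z : ℝ} {th : ℂ} (hT1 : Tlo ≤ T) (hT2 : T ≤ Thi) (h : Roots T x0 z th)
    (d : ℕ) (h1 : 1 ≤ d) (hd : d ≤ 10) :
    ‖th * zdc T th d - ⟨(ztRe.getD d 0 : ℝ) / 10 ^ 16, (ztIm.getD d 0 : ℝ) / 10 ^ 16⟩‖ ≤ 1 / 10 ^ 14 := by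
  have hg := g_num hT1 hT2 h d hd
  have ht := th_tc h
  have hn := GC_norm d hd
  obtain ⟨⟨h1', h2'⟩, h3', h4'⟩ := th_num h
  have hth : th ≠ 0 := by
    intro h0; rw [h0] at h1'; norm_num at h1'
  set g := gam (T : ℂ) th (56 - d) with hgd
  have e0 : th * zdc T th d = a2c * ((th - 1) * g) := by
    unfold zdc
    rw [← hgd]
    field_simp
  have e : th * zdc T th d - ⟨(ztRe.getD d 0 : ℝ) / 10 ^ 16, (ztIm.getD d 0 : ℝ) / 10 ^ 16⟩
      = a2c * ((th - 1) * (g - GC d)) + a2c * ((th - tc) * GC d)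
        + (a2c * ((tc - 1) * GC d) - ⟨(ztRe.getD d 0 : ℝ) / 10 ^ 16, (ztIm.getD d 0 : ℝ) / 10 ^ 16⟩) := by
    rw [e0]; ring
  have ha : ‖a2c‖ ≤ 3 / 10 ^ 6 := by
    refine (Complex.norm_le_abs_re_add_abs_im _).trans ?_
    unfold a2c; norm_num [abs_of_neg]
  have hm : ‖th - 1‖ ≤ 0.2 := by
    refine (Complex.norm_le_abs_re_add_abs_im _).trans ?_
    simp only [Complex.sub_re, Complex.sub_im, Complex.one_re, Complex.one_im, sub_zero]
    rw [abs_of_nonneg (by linarith), abs_of_nonneg (by linarith)]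
    linarith
  have hd' : (d : ℝ) ≤ 10 := by exact_mod_cast hd
  have b1 : ‖a2c * ((th - 1) * (g - GC d))‖ ≤ 3 / 10 ^ 6 * (0.2 * (10 * (1 / 10 ^ 11))) := by
    rw [norm_mul, norm_mul]
    have : ‖g - GC d‖ ≤ 10 * (1 / 10 ^ 11) := hg.trans (by gcongr)
    gcongr
  have b2 : ‖a2c * ((th - tc) * GC d)‖ ≤ 3 / 10 ^ 6 * (2 / 10 ^ 20 * 21000) := by
    rw [norm_mul, norm_mul]
    gcongr
  have b3 : ‖a2c * ((tc - 1) * GC d) - ⟨(ztRe.getD d 0 : ℝ) / 10 ^ 16, (ztIm.getD d 0 : ℝ) / 10 ^ 16⟩‖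
      ≤ 2 / 10 ^ 16 := by
    refine (Complex.norm_le_abs_re_add_abs_im _).trans ?_
    simp only [Complex.sub_re, Complex.sub_im, Complex.mul_re, Complex.mul_im, Complex.one_re,
      Complex.one_im]
    unfold GC a2c tc
    clear e e0 hg hn b1 b2 hgd
    clear_value g
    interval_cases d <;> norm_num [GR, GI, ztRe, ztIm, abs_le]
  rw [e]
  refine (norm_add_le _ _).trans ((add_le_add ((norm_add_le _ _).trans (add_le_add b1 b2)) b3).trans ?_)
  norm_num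

/-- N3 -/
theorem numkick : NumKickStmt := by
  intro T x0 z th hT1 hT2 h
  exact ⟨cE_num hT1 hT2 h, cd_num hT1 hT2 h, ze_num hT1 hT2 h, zd_num hT1 hT2 h⟩

end SA.H58
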