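import Pool.Agent.Helper88_SA.StmtN

/-! Module NUMROOT: numerical enclosures of the roots. -/

namespace SA.H58

open Real Complex

/-! ### the number T -/

theorem T_num {T : ℝ} (h1 : Tlo ≤ T) (h2 : T ≤ Thi) :
    (36.954776203547075292 : ℝ) ≤ T ∧ T ≤ 36.954776203547075293 := by
  constructor
  · refine le_trans ?_ h1
    unfold Tlo Tm; norm_num
  · refine le_trans h2 ?_
    unfold Thi Tm; norm_num

/-! ### the real roots -/

theorem x0_num {T x0 z : ℝ} {th : ℂ} (h : Roots T x0 z th) :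
    (1.0380665629991488825 : ℝ) ≤ x0 ∧ x0 ≤ 1.0380665629991488826 := by
  obtain ⟨h1, h2⟩ := abs_le.mp h.x0_enc
  unfold x0N at h1 h2
  constructor
  · norm_num at h1 ⊢; linarith
  · norm_num at h2 ⊢; linarith

theorem z_num {T x0 z : ℝ} {th : ℂ} (h : Roots T x0 z th) :
    (0.97274889192303257341 : ℝ) ≤ z ∧ z ≤ 0.97274889192303257342 := by
  obtain ⟨h1, h2⟩ := abs_le.mp h.z_enc
  unfold zN at h1 h2
  constructor
  · norm_num at h1 ⊢; linarith
  · norm_num at h2 ⊢; linarith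

theorem th_num {T x0 z : ℝ} {th : ℂ} (h : Roots T x0 z th) :
    ((1.02948352879251378034 : ℝ) ≤ th.re ∧ th.re ≤ 1.02948352879251378035) ∧
    ((0.13313337742947792797 : ℝ) ≤ th.im ∧ th.im ≤ 0.13313337742947792798) := by
  have hre := (Complex.abs_re_le_norm _).trans h.th_enc
  have him := (Complex.abs_im_le_norm _).trans h.th_enc
  simp only [Complex.sub_re, Complex.sub_im] at hre him
  obtain ⟨h1, h2⟩ := abs_le.mp hre
  obtain ⟨h3, h4⟩ := abs_le.mp him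
  unfold thReN at h1 h2
  unfold thImN at h3 h4
  refine ⟨⟨?_, ?_⟩, ⟨?_, ?_⟩⟩
  · norm_num at h1 ⊢; linarith
  · norm_num at h2 ⊢; linarith
  · norm_num at h3 ⊢; linarith
  · norm_num at h4 ⊢; linarith


/-- the angle -/
noncomputable def t0 : ℝ := 0.128606789191749

theorem sum12 (t : ℝ) : (∑ m ∈ Finset.range 12, ((t : ℂ) * I) ^ m / (m.factorial : ℂ))
    = ((1 - t ^ 2 / 2 + t ^ 4 / 24 - t ^ 6 / 720 + t ^ 8 / 40320 - t ^ 10 / 3628800 : ℝ) : ℂ)
      + ((t - t ^ 3 / 6 + t ^ 5 / 120 - t ^ 7 / 5040 + t ^ 9 / 362880 - t ^ 11 / 39916800 : ℝ) : ℂ) * I := by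
  have e2 : (I : ℂ) ^ 2 = -1 := I_sq
  have e3 : (I : ℂ) ^ 3 = -I := by rw [I_pow_eq_pow_mod]; norm_num [pow_succ]
  have e4 : (I : ℂ) ^ 4 = 1 := by rw [I_pow_eq_pow_mod]; norm_num
  have e5 : (I : ℂ) ^ 5 = I := by rw [I_pow_eq_pow_mod]; norm_num
  have e6 : (I : ℂ) ^ 6 = -1 := by rw [I_pow_eq_pow_mod]; norm_num
  have e7 : (I : ℂ) ^ 7 = -I := by rw [I_pow_eq_pow_mod]; norm_num [pow_succ]
  have e8 : (I : ℂ) ^ 8 = 1 := by rw [I_pow_eq_pow_mod]; norm_num
  have e9 : (I : ℂ) ^ 9 = I := by rw [I_pow_eq_pow_mod]; norm_num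
  have e10 : (I : ℂ) ^ 10 = -1 := by rw [I_pow_eq_pow_mod]; norm_num
  have e11 : (I : ℂ) ^ 11 = -I := by rw [I_pow_eq_pow_mod]; norm_num [pow_succ]
  simp only [Finset.sum_range_succ, Finset.sum_range_zero, mul_pow, e2, e3, e4, e5, e6, e7, e8, e9,
    e10, e11, Nat.factorial, pow_zero, pow_one]
  push_cast
  ring

theorem cs_enc : |Real.cos t0 - 0.9917415390162895586| ≤ 1 / 10 ^ 18 ∧
    |Real.sin t0 - 0.1282525625069589596| ≤ 1 / 10 ^ 18 := by
  have ht : ‖((t0 : ℝ) : ℂ) * I‖ = t0 := by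
    rw [norm_mul, Complex.norm_I, mul_one, Complex.norm_real, Real.norm_eq_abs, abs_of_nonneg]
    unfold t0; norm_num
  have h := Complex.exp_bound (x := ((t0 : ℝ) : ℂ) * I) (by rw [ht]; unfold t0; norm_num) (n := 12) (by norm_num)
  rw [ht, sum12] at h
  have hb : t0 ^ 12 * (((12 : ℕ).succ : ℝ) * (((12 : ℕ).factorial : ℝ) * (12 : ℕ))⁻¹) ≤ 6 / 10 ^ 20 := by
    unfold t0
    norm_num [Nat.factorial]
  have h' := h.trans hb
  have e : Complex.exp (((t0 : ℝ) : ℂ) * I) = ((Real.cos t0 : ℝ) : ℂ) + ((Real.sin t0 : ℝ) : ℂ) * I := by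
    rw [Complex.exp_mul_I]; push_cast; rfl
  rw [e] at h'
  have hre := (Complex.abs_re_le_norm _).trans h'
  have him := (Complex.abs_im_le_norm _).trans h'
  simp only [Complex.sub_re, Complex.sub_im, Complex.add_re, Complex.add_im, Complex.ofReal_re,
    Complex.ofReal_im, Complex.mul_re, Complex.mul_im, Complex.I_re, Complex.I_im, mul_zero, mul_one,
    sub_zero, add_zero, zero_add] at hre him
  constructor
  · refine abs_le.mpr ⟨?_, ?_⟩
    · obtain ⟨h1, h2⟩ := abs_le.mp hre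
      unfold t0 at h1 h2 ⊢
      norm_num at h1 h2 ⊢
      linarith
    · obtain ⟨h1, h2⟩ := abs_le.mp hre
      unfold t0 at h1 h2 ⊢
      norm_num at h1 h2 ⊢
      linarith
  · refine abs_le.mpr ⟨?_, ?_⟩
    · obtain ⟨h1, h2⟩ := abs_le.mp him
      unfold t0 at h1 h2 ⊢
      norm_num at h1 h2 ⊢
      linarith
    · obtain ⟨h1, h2⟩ := abs_le.mp him
      unfold t0 at h1 h2 ⊢
      norm_num at h1 h2 ⊢
      linarith


/-! ### norm and argument of theta -/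

theorem norm_num_th {T x0 z : ℝ} {th : ℂ} (h : Roots T x0 z th) :
    (1.03805627604714493 : ℝ) ≤ ‖th‖ ∧ ‖th‖ ≤ 1.03805627604714494 := by
  obtain ⟨⟨h1, h2⟩, h3, h4⟩ := th_num h
  have hn : ‖th‖ ^ 2 = th.re ^ 2 + th.im ^ 2 := by
    rw [← Complex.normSq_eq_norm_sq, Complex.normSq_apply]; ring
  have a1 : (1.02948352879251378034 : ℝ) ^ 2 ≤ th.re ^ 2 := pow_le_pow_left₀ (by norm_num) h1 2
  have a2 : th.re ^ 2 ≤ (1.02948352879251378035 : ℝ) ^ 2 := pow_le_pow_left₀ (by linarith) h2 2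
  have b1 : (0.13313337742947792797 : ℝ) ^ 2 ≤ th.im ^ 2 := pow_le_pow_left₀ (by norm_num) h3 2
  have b2 : th.im ^ 2 ≤ (0.13313337742947792798 : ℝ) ^ 2 := pow_le_pow_left₀ (by linarith) h4 2
  constructor
  · refine le_of_sq_le_sq ?_ (norm_nonneg _)
    rw [hn]
    refine le_trans ?_ (add_le_add a1 b1)
    norm_num
  · refine le_of_sq_le_sq ?_ (by norm_num)
    rw [hn]
    refine le_trans (add_le_add a2 b2) ?_
    norm_num

theorem omg_close {T x0 z : ℝ} {th : ℂ} (h : Roots T x0 z th) :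
    |omg th - t0| ≤ 1 / 10 ^ 15 := by
  obtain ⟨⟨h1, h2⟩, h3, h4⟩ := th_num h
  obtain ⟨n1, n2⟩ := norm_num_th h
  obtain ⟨hc, hs⟩ := cs_enc
  obtain ⟨c1, c2⟩ := abs_le.mp hc
  obtain ⟨s1, s2⟩ := abs_le.mp hs
  have hth : th ≠ 0 := by
    intro h0; rw [h0] at h1; norm_num at h1
  have hre : ‖th‖ * Real.cos (omg th) = th.re := Complex.norm_mul_cos_arg th
  have him : ‖th‖ * Real.sin (omg th) = th.im := Complex.norm_mul_sin_arg th
  have hsin : ‖th‖ * Real.sin (omg th - t0) = th.im * Real.cos t0 - th.re * Real.sin t0 := by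
    rw [Real.sin_sub, ← hre, ← him]; ring
  have hc0 : 0 ≤ Real.cos t0 := by linarith
  have hs0 : 0 ≤ Real.sin t0 := by linarith
  have u1 : th.im * Real.cos t0 ≤ 0.13313337742947792798 * 0.9917415390162895596 :=
    mul_le_mul h4 (by linarith) hc0 (by norm_num)
  have u2 : (0.13313337742947792797 : ℝ) * 0.9917415390162895576 ≤ th.im * Real.cos t0 :=
    mul_le_mul h3 (by linarith) (by norm_num) (by linarith)
  have v1 : th.re * Real.sin t0 ≤ 1.02948352879251378035 * 0.1282525625069589606 :=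
    mul_le_mul h2 (by linarith) hs0 (by norm_num)
  have v2 : (1.02948352879251378034 : ℝ) * 0.1282525625069589586 ≤ th.re * Real.sin t0 :=
    mul_le_mul h1 (by linarith) (by norm_num) (by linarith)
  have hpr : |th.im * Real.cos t0 - th.re * Real.sin t0| ≤ 5 / 10 ^ 16 := by
    refine abs_le.mpr ⟨?_, ?_⟩
    · norm_num at u2 v1 ⊢; linarith
    · norm_num at u1 v2 ⊢; linarith
  have hs' : |Real.sin (omg th - t0)| ≤ 5 / 10 ^ 16 := by
    rw [← hsin, abs_mul, abs_of_nonneg (norm_nonneg _)] at hpr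
    nlinarith [abs_nonneg (Real.sin (omg th - t0))]
  have hpi := Real.pi_gt_three
  have hpi4 := Real.pi_lt_d2
  have harg1 : 0 ≤ omg th := Complex.arg_nonneg_iff.mpr (by linarith)
  have harg2 : omg th ≤ π / 2 :=
    (abs_le.mp (Complex.abs_arg_le_pi_div_two_iff.mpr (by linarith : 0 ≤ th.re))).2
  have ht1 : 0 ≤ t0 := by unfold t0; norm_num
  have ht2 : t0 ≤ 1 := by unfold t0; norm_num
  have hle : |omg th - t0| ≤ π / 2 := abs_le.mpr ⟨by linarith, by linarith⟩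
  have hj := Real.mul_abs_le_abs_sin hle
  have hj2 : 2 / π * |omg th - t0| ≤ 5 / 10 ^ 16 := hj.trans hs'
  have hp0 : (0 : ℝ) < π := by linarith
  rw [div_mul_eq_mul_div, div_le_iff₀ hp0] at hj2
  nlinarith

theorem per_close {T x0 z : ℝ} {th : ℂ} (h : Roots T x0 z th) :
    |per th - 48.855782394283| ≤ 1 / 10 ^ 9 := by
  have ho := omg_close h
  obtain ⟨o1, o2⟩ := abs_le.mp ho
  unfold t0 at o1 o2
  have hp1 := Real.pi_gt_d20
  have hp2 := Real.pi_lt_d20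
  have hpos : 0 < omg th := by
    norm_num at o1 ⊢; linarith
  unfold per
  refine abs_le.mpr ⟨?_, ?_⟩
  · rw [neg_le_sub_iff_le_add, ← sub_le_iff_le_add, le_div_iff₀ hpos]
    norm_num at o1 o2 hp1 hp2 ⊢
    nlinarith
  · rw [sub_le_iff_le_add, div_le_iff₀ hpos]
    norm_num at o1 o2 hp1 hp2 ⊢
    nlinarith

/-! ### powers -/

theorem pow_num {T x0 z : ℝ} {th : ℂ} (h : Roots T x0 z th) (t : ℕ) (ht : t < 26) :
    (X0lo t : ℝ) / 10 ^ 10 ≤ x0 ^ t ∧ x0 ^ t ≤ (X0hi t : ℝ) / 10 ^ 10 := by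
  obtain ⟨h1, h2⟩ := x0_num h
  have p1 : (1.0380665629991488825 : ℝ) ^ t ≤ x0 ^ t := pow_le_pow_left₀ (by norm_num) h1 t
  have p2 : x0 ^ t ≤ (1.0380665629991488826 : ℝ) ^ t := pow_le_pow_left₀ (by linarith) h2 t
  have q : (X0lo t : ℝ) / 10 ^ 10 ≤ (1.0380665629991488825 : ℝ) ^ t ∧
      (1.0380665629991488826 : ℝ) ^ t ≤ (X0hi t : ℝ) / 10 ^ 10 := by
    clear p1 p2 h1 h2 h
    interval_cases t <;> constructor <;> norm_num [X0lo, X0hi, X0loL, X0hiL]
  exact ⟨q.1.trans p1, p2.trans q.2⟩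

/-- N2 -/
theorem numroot : NumRootStmt := by
  intro T x0 z th hT1 hT2 h
  obtain ⟨t1, t2⟩ := T_num hT1 hT2
  obtain ⟨a1, a2⟩ := x0_num h
  obtain ⟨z1, z2⟩ := z_num h
  obtain ⟨n1, n2⟩ := norm_num_th h
  have hn : 0 < ‖th‖ := by linarith
  refine ⟨by linarith, by linarith, by linarith, by linarith, pow_num h, by linarith, by linarith,
    ?_, hn, ?_, ?_, ?_, per_close h⟩
  · rw [le_div_iff₀ (by linarith)]; linarith
  · rw [le_div_iff₀ hn]; linarith
  · rw [div_le_iff₀ hn]; linarith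
  · have := omg_close h
    unfold t0 at this
    refine this.trans ?_
    norm_num

end SA.H58
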