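import Pool.Agent.Helper88_SA.StmtA
import Pool.Agent.Helper88_SA.StmtN
import Pool.Agent.Helper58_SA.NumRoot

/-! Module SIGN, part A: formula for the mode, quiet scaling, localisation of the root z. -/

namespace SA.H58

open Finset

/-! ### closed form of the characteristic sequence -/

theorem gam_cl (T x : ℝ) (hx : x ≠ 1) (r : ℕ) :
    (x - 1) ^ 3 * gam T x r
      = x * (x ^ r - 1) - T * (x - 1) * (x ^ (r + 1) - (r + 1) * x + r) * 1 + 0 * (x ^ r) := by
  have h1 : x - 1 ≠ 0 := sub_ne_zero.mpr hx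
  induction r with
  | zero => simp [gam]
  | succ r ih =>
    rw [gam]
    have e : (x - 1) ^ 3 * (x / (x - 1) ^ 2 - ((r : ℝ) + 1) * T + x * gam T x r)
        = x * (x - 1) - ((r : ℝ) + 1) * T * (x - 1) ^ 3 + x * ((x - 1) ^ 3 * gam T x r) := by
      field_simp
    rw [e, ih]
    push_cast
    ring

/-- the characteristic polynomial -/
noncomputable def HH (T x : ℝ) : ℝ := ∑ j ∈ range 56, x ^ (j + 1) - T * (x ^ 57 - 57 * x + 56)

theorem HH_eq (T x : ℝ) : (x - 1) * HH T x = x ^ 57 - x - T * (x - 1) * (x ^ 57 - 57 * x + 56) := by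
  have h : (x - 1) * ∑ j ∈ range 56, x ^ (j + 1) = x ^ 57 - x := by
    have h2 := geom_sum_mul x 56
    have h3 : ∑ j ∈ range 56, x ^ (j + 1) = x * ∑ j ∈ range 56, x ^ j := by
      rw [mul_sum]; exact sum_congr rfl fun j _ => by ring
    rw [h3]
    linear_combination x * h2
  unfold HH
  rw [mul_sub, h]
  ring

theorem HH_root {T x : ℝ} (hx : x ≠ 1) (h : gam T x 56 = 0) : HH T x = 0 := by
  have h1 := gam_cl T x hx 56
  rw [h, mul_zero] at h1
  have h2 := HH_eq T x
  have h3 : (x - 1) * HH T x = 0 := by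
    rw [h2]
    push_cast at h1
    linarith
  rcases mul_eq_zero.mp h3 with h4 | h4
  · exact absurd (sub_eq_zero.mp h4) hx
  · exact h4

theorem HH_mono {T x y : ℝ} (hT : 0 ≤ T) (hx : 0 ≤ x) (hxy : x ≤ y) (hy : y ≤ 1) :
    HH T x ≤ HH T y := by
  unfold HH
  have h1 : ∑ j ∈ range 56, x ^ (j + 1) ≤ ∑ j ∈ range 56, y ^ (j + 1) :=
    sum_le_sum fun j _ => pow_le_pow_left₀ hx hxy _
  have h2 : y ^ 57 - x ^ 57 ≤ 57 * (y - x) := by
    have h3 := (Commute.all y x).geom_sum₂_mul 57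
    rw [← h3]
    refine mul_le_mul_of_nonneg_right ?_ (by linarith)
    calc ∑ i ∈ range 57, y ^ i * x ^ (57 - 1 - i) ≤ ∑ _i ∈ range 57, (1 : ℝ) := by
          refine sum_le_sum fun i _ => ?_
          have a1 : y ^ i ≤ 1 := pow_le_one₀ (by linarith) hy
          have a2 : x ^ (57 - 1 - i) ≤ 1 := pow_le_one₀ hx (by linarith)
          exact mul_le_one₀ a1 (pow_nonneg hx _) a2
      _ = 57 := by simp
  have h4 : T * (y ^ 57 - 57 * y + 56) ≤ T * (x ^ 57 - 57 * x + 56) :=
    mul_le_mul_of_nonneg_left (by linarith) hT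
  linarith

/-- localisation of the root -/
theorem root_gt {T z a : ℝ} (hT : 0 ≤ T) (hz0 : 0 ≤ z) (hz1 : z < 1) (hz : gam T z 56 = 0)
    (ha1 : a < 1)
    (h : 0 < a ^ 57 - a - T * (a - 1) * (a ^ 57 - 57 * a + 56)) : a < z := by
  rw [← HH_eq] at h
  have h1 : HH T a < 0 := by
    by_contra hc
    push Not at hc
    have : (a - 1) * HH T a ≤ 0 := mul_nonpos_of_nonpos_of_nonneg (by linarith) hc
    linarith
  by_contra hc
  push Not at hc
  have h2 := HH_mono hT hz0 hc ha1.le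
  rw [HH_root hz1.ne hz] at h2
  linarith

theorem root_lt {T z a : ℝ} (hT : 0 ≤ T) (hz1 : z < 1) (hz : gam T z 56 = 0)
    (ha0 : 0 ≤ a) (ha1 : a < 1)
    (h : a ^ 57 - a - T * (a - 1) * (a ^ 57 - 57 * a + 56) < 0) : z < a := by
  rw [← HH_eq] at h
  have h1 : 0 < HH T a := by
    by_contra hc
    push Not at hc
    have : 0 ≤ (a - 1) * HH T a := mul_nonneg_of_nonpos_of_nonpos (by linarith) hc
    linarith
  by_contra hc
  push Not at hc
  have h2 := HH_mono hT ha0 hc hz1.le
  rw [HH_root hz1.ne hz] at h2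
  linarith

/-! ### the mode as a combination of the barriers -/

theorem phi_eq (T x : ℝ) (n : ℕ) (hx : x ≠ 1) (h : gam T x 56 = 0) :
    PhiR T x n = ∑ r ∈ range 56, (gr T n).Q (55 - r) * ((1 - x) * gam T x r + ((r : ℝ) + 1) * T)
      - 56 * (x / (x - 1) ^ 2) + T * (gr T n).E / (1 - x) := by
  have h1 : x - 1 ≠ 0 := sub_ne_zero.mpr hx
  have h1' : 1 - x ≠ 0 := sub_ne_zero.mpr hx.symm
  set Q := (gr T n).Q with hQ
  have e1 : ∑ d ∈ Icc 1 55, Nd T n d * gam T x (56 - d)
      = ∑ i ∈ range 55, (Q i - Q (i + 1)) * gam T x (55 - i) := by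
    rw [show Icc 1 55 = (range 55).image (· + 1) by decide]
    rw [sum_image (fun a _ b _ hab => by simpa using hab)]
    refine sum_congr rfl fun i hi => ?_
    rw [show 56 - (i + 1) = 55 - i by omega]
    rfl
  have e2 : ∑ i ∈ range 55, (Q i - Q (i + 1)) * gam T x (55 - i)
      = ∑ i ∈ range 56, Q i * (gam T x (55 - i) - gam T x (56 - i)) := by
    have a1 : ∑ i ∈ range 56, Q i * gam T x (55 - i) = ∑ i ∈ range 55, Q i * gam T x (55 - i) := by
      rw [sum_range_succ]
      simp [gam]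
    have a2 : ∑ i ∈ range 56, Q i * gam T x (56 - i)
        = ∑ i ∈ range 55, Q (i + 1) * gam T x (55 - i) := by
      rw [sum_range_succ']
      simp only [Nat.sub_zero, h, mul_zero, add_zero]
      refine sum_congr rfl fun i hi => ?_
      rw [show 56 - (i + 1) = 55 - i by omega]
    simp only [sub_mul, mul_sub, sum_sub_distrib]
    rw [a1, a2]
  have e3 : ∀ i ∈ range 56, Q i * (gam T x (55 - i) - gam T x (56 - i))
      = Q i * ((1 - x) * gam T x (55 - i) + ((56 - i : ℕ) : ℝ) * T) - Q i * (x / (x - 1) ^ 2) := by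
    intro i hi
    have hi' : i < 56 := mem_range.mp hi
    have e : gam T x (56 - i) = x / (x - 1) ^ 2 - ((56 - i : ℕ) : ℝ) * T + x * gam T x (55 - i) := by
      rw [show 56 - i = (55 - i) + 1 by omega, gam]
      push_cast
      ring
    rw [e]; ring
  have e4 : ∑ r ∈ range 56, Q (55 - r) * ((1 - x) * gam T x r + ((r : ℝ) + 1) * T)
      = ∑ i ∈ range 56, Q i * ((1 - x) * gam T x (55 - i) + ((56 - i : ℕ) : ℝ) * T) := by
    rw [← sum_range_reflect]
    refine sum_congr rfl fun i hi => ?_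
    have hi' : i < 56 := mem_range.mp hi
    rw [show 55 - (56 - 1 - i) = i by omega, show 56 - 1 - i = 55 - i by omega,
      show 56 - i = (55 - i) + 1 by omega]
    push_cast
    ring
  unfold PhiR
  rw [e1, e2, sum_congr rfl e3, sum_sub_distrib, e4, ← sum_mul]
  have hR : (gr T n).R = 56 - ∑ j ∈ range 56, Q j := rfl
  rw [hR]
  generalize (∑ i ∈ range 56, Q i * ((1 - x) * gam T x (55 - i) + ((56 - i : ℕ) : ℝ) * T)) = A
  generalize (∑ i ∈ range 56, Q i) = B
  field_simp
  ring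

/-! ### quiet scaling -/

theorem quiet (hPd : PdStmt) (hM : ModRStmt) {T x : ℝ} (hT : T ≠ 0) (hx0 : x ≠ 0) (hx1 : x ≠ 1)
    (h : gam T x 56 = 0) (hV : ∀ n, n < 1525 → Valid T n)
    (hk : ∀ n, 171 ≤ n → n < 1525 → kap T n = 0) :
    ∀ k, k ≤ 1354 → x ^ k * PhiR T x (171 + k) = PhiR T x 171 := by
  intro k
  induction k with
  | zero => intro _; simp
  | succ k ih =>
    intro hk'
    have h1 := ih (by omega)
    have h2 := hM T x (171 + k) hT hx0 hx1 h (fun m hm => hV m (by omega))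
    have h3 := (hPd T (171 + k) (fun m hm => hV m (by omega))).2.1
    have h4 : ∑ d ∈ Icc (1 : ℕ) 55, pd T (171 + k) d * gam T x (56 - d) = 0 := by
      refine sum_eq_zero fun d hd => ?_
      rw [mem_Icc] at hd
      rw [h3 d (by rw [hk (171 + k) (by omega) (by omega)]; omega) hd.2, zero_mul]
    rw [h4, mul_zero, add_zero] at h2
    rw [← h1, ← h2, ← add_assoc]
    ring

end SA.H58
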