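import Pool.Agent.Helper58_SA.SignA

/-! Module SIGN, part B: certificate for the value of a mode. -/

namespace SA.H58

open Finset

/-- `x` lies between `I.1 / S` and `I.2 / S` -/
def Enc (S : ℕ) (I : ℤ × ℤ) (x : ℝ) : Prop := (I.1 : ℝ) ≤ x * S ∧ x * S ≤ (I.2 : ℝ)

def cL (S : ℤ) (T z : ℤ × ℤ) (r : ℕ) (g : ℤ × ℤ) : ℤ :=
  min ((S - z.2) * g.1) ((S - z.2) * g.2) + (r + 1) * T.1 * S
def cU (S : ℤ) (T z : ℤ × ℤ) (r : ℕ) (g : ℤ × ℤ) : ℤ :=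
  max ((S - z.1) * g.1) ((S - z.1) * g.2) + (r + 1) * T.2 * S

def stepOK (S : ℤ) (T z K : ℤ × ℤ) (r : ℕ) (g g' : ℤ × ℤ) : Bool :=
  decide (g'.1 * S ≤ K.1 * S - (r + 1) * T.2 * S + z.1 * g.1) &&
  decide (K.2 * S - (r + 1) * T.1 * S + z.2 * g.2 ≤ g'.2 * S)

/-- the certificate for the first `n` values -/
def gOK (S : ℤ) (T z K : ℤ × ℤ) (G : ℕ → ℤ × ℤ) : ℕ → Bool
  | 0 => true
  | n + 1 => stepOK S T z K n (G n) (G (n + 1)) && decide (0 ≤ (G (n + 1)).1) && gOK S T z K G n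

def sL (S : ℤ) (T z : ℤ × ℤ) (Q G : ℕ → ℤ × ℤ) : ℕ → ℤ
  | 0 => 0
  | n + 1 => sL S T z Q G n + (Q (55 - n)).1 * cL S T z n (G n)
def sU (S : ℤ) (T z : ℤ × ℤ) (Q G : ℕ → ℤ × ℤ) : ℕ → ℤ
  | 0 => 0
  | n + 1 => sU S T z Q G n + (Q (55 - n)).2 * cU S T z n (G n)
def posOK (S : ℤ) (T z : ℤ × ℤ) (Q G : ℕ → ℤ × ℤ) : ℕ → Bool
  | 0 => true
  | n + 1 => decide (0 ≤ cL S T z n (G n)) && decide (0 ≤ (Q (55 - n)).1) && posOK S T z Q G n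

theorem g_enc {S : ℕ} {T z K : ℤ × ℤ} {G : ℕ → ℤ × ℤ} {t x : ℝ} (hS : 0 < S) (hG0 : G 0 = (0, 0))
    (hT : Enc S T t) (hz : Enc S z x) (hz0 : 0 ≤ z.1)
    (hK : Enc S K (x / (x - 1) ^ 2)) (n : ℕ) (h : gOK S T z K G n = true) :
    ∀ r, r ≤ n → Enc S (G r) (gam t x r) ∧ 0 ≤ (G r).1 := by
  have hSR : (0 : ℝ) < S := by exact_mod_cast hS
  induction n with
  | zero =>
    intro r hr
    obtain rfl : r = 0 := by omega
    rw [hG0]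
    simp [Enc, gam]
  | succ n ih =>
    rw [gOK, Bool.and_eq_true, Bool.and_eq_true, decide_eq_true_iff] at h
    obtain ⟨⟨h1, h2⟩, h3⟩ := h
    intro r hr
    rcases Nat.lt_or_ge r (n + 1) with hlt | hge
    · exact ih h3 r (by omega)
    obtain rfl : r = n + 1 := by omega
    refine ⟨?_, h2⟩
    rw [stepOK, Bool.and_eq_true, decide_eq_true_iff, decide_eq_true_iff] at h1
    obtain ⟨h4, h5⟩ := h1
    obtain ⟨⟨i1, i2⟩, i3⟩ := ih h3 n le_rfl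
    obtain ⟨z1, z2⟩ := hz
    obtain ⟨t1, t2⟩ := hT
    obtain ⟨k1, k2⟩ := hK
    have h4' : ((G (n + 1)).1 : ℝ) * S ≤ (K.1 : ℝ) * S - ((n : ℝ) + 1) * (T.2 : ℝ) * S
        + (z.1 : ℝ) * ((G n).1 : ℝ) := by exact_mod_cast h4
    have h5' : (K.2 : ℝ) * S - ((n : ℝ) + 1) * (T.1 : ℝ) * S + (z.2 : ℝ) * ((G n).2 : ℝ)
        ≤ ((G (n + 1)).2 : ℝ) * S := by exact_mod_cast h5
    have z0 : (0 : ℝ) ≤ z.1 := by exact_mod_cast hz0
    have g0 : (0 : ℝ) ≤ (G n).1 := by exact_mod_cast i3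
    have m1 : (z.1 : ℝ) * ((G n).1 : ℝ) ≤ (x * S) * (gam t x n * S) :=
      mul_le_mul z1 i1 g0 (z0.trans z1)
    have m2 : (x * S) * (gam t x n * S) ≤ (z.2 : ℝ) * ((G n).2 : ℝ) :=
      mul_le_mul z2 i2 (g0.trans i1) ((z0.trans z1).trans z2)
    have n0 : (0 : ℝ) ≤ (n : ℝ) + 1 := by positivity
    have t1' : ((n : ℝ) + 1) * (T.1 : ℝ) ≤ ((n : ℝ) + 1) * (t * S) := mul_le_mul_of_nonneg_left t1 n0
    have t2' : ((n : ℝ) + 1) * (t * S) ≤ ((n : ℝ) + 1) * (T.2 : ℝ) := mul_le_mul_of_nonneg_left t2 n0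
    rw [Enc, gam]
    constructor
    · refine le_of_mul_le_mul_right ?_ hSR
      nlinarith [mul_le_mul_of_nonneg_right k1 hSR.le, mul_le_mul_of_nonneg_right t2' hSR.le]
    · refine le_of_mul_le_mul_right ?_ hSR
      nlinarith [mul_le_mul_of_nonneg_right k2 hSR.le, mul_le_mul_of_nonneg_right t1' hSR.le]

theorem c_enc {S : ℕ} {T z g : ℤ × ℤ} {t x y : ℝ} (hT : Enc S T t) (hz : Enc S z x)
    (hg : Enc S g y) (hg0 : 0 ≤ g.1) (r : ℕ) :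
    (cL S T z r g : ℝ) ≤ ((1 - x) * y + ((r : ℝ) + 1) * t) * (S * S) ∧
    ((1 - x) * y + ((r : ℝ) + 1) * t) * (S * S) ≤ (cU S T z r g : ℝ) := by
  obtain ⟨z1, z2⟩ := hz
  obtain ⟨t1, t2⟩ := hT
  obtain ⟨g1, g2⟩ := hg
  have g0 : (0 : ℝ) ≤ y * S := le_trans (by exact_mod_cast hg0) g1
  have hS0 : (0 : ℝ) ≤ S := Nat.cast_nonneg _
  have n0 : (0 : ℝ) ≤ ((r : ℝ) + 1) * S := by positivity
  unfold cL cU
  push_cast
  constructor
  · have a1 : ((S : ℝ) - z.2) * (y * S) ≤ ((1 - x) * S) * (y * S) :=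
      mul_le_mul_of_nonneg_right (by linarith) g0
    have a2 : min (((S : ℝ) - z.2) * g.1) (((S : ℝ) - z.2) * g.2) ≤ ((S : ℝ) - z.2) * (y * S) := by
      rcases le_total 0 ((S : ℝ) - z.2) with hs | hs
      · exact (min_le_left _ _).trans (mul_le_mul_of_nonneg_left g1 hs)
      · exact (min_le_right _ _).trans (mul_le_mul_of_nonpos_left g2 hs)
    nlinarith [mul_le_mul_of_nonneg_left t1 n0]
  · have a1 : ((1 - x) * S) * (y * S) ≤ ((S : ℝ) - z.1) * (y * S) :=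
      mul_le_mul_of_nonneg_right (by linarith) g0
    have a2 : ((S : ℝ) - z.1) * (y * S) ≤ max (((S : ℝ) - z.1) * g.1) (((S : ℝ) - z.1) * g.2) := by
      rcases le_total 0 ((S : ℝ) - z.1) with hs | hs
      · exact (mul_le_mul_of_nonneg_left g2 hs).trans (le_max_right _ _)
      · exact (mul_le_mul_of_nonpos_left g1 hs).trans (le_max_left _ _)
    nlinarith [mul_le_mul_of_nonneg_left t2 n0]

theorem s_enc {S : ℕ} {T z : ℤ × ℤ} {Q G : ℕ → ℤ × ℤ} {t x : ℝ} {q : ℕ → ℝ} (hT : Enc S T t)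
    (hz : Enc S z x) (hG : ∀ r, r < 56 → Enc S (G r) (gam t x r) ∧ 0 ≤ (G r).1)
    (hQ : ∀ j, j < 56 → Enc S (Q j) (q j)) (n : ℕ) (hn : n ≤ 56) (h : posOK S T z Q G n = true) :
    (sL S T z Q G n : ℝ) ≤
      (∑ r ∈ range n, q (55 - r) * ((1 - x) * gam t x r + ((r : ℝ) + 1) * t)) * (S * S * S) ∧
    (∑ r ∈ range n, q (55 - r) * ((1 - x) * gam t x r + ((r : ℝ) + 1) * t)) * (S * S * S)
      ≤ (sU S T z Q G n : ℝ) := by
  induction n with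
  | zero => simp [sL, sU]
  | succ n ih =>
    rw [posOK, Bool.and_eq_true, Bool.and_eq_true, decide_eq_true_iff, decide_eq_true_iff] at h
    obtain ⟨⟨h1, h2⟩, h3⟩ := h
    obtain ⟨i1, i2⟩ := ih (by omega) h3
    obtain ⟨gE, g0⟩ := hG n (by omega)
    obtain ⟨c1, c2⟩ := c_enc hT hz gE g0 n
    obtain ⟨q1, q2⟩ := hQ (55 - n) (by omega)
    have h1' : (0 : ℝ) ≤ (cL S T z n (G n) : ℝ) := by exact_mod_cast h1
    have h2' : (0 : ℝ) ≤ ((Q (55 - n)).1 : ℝ) := by exact_mod_cast h2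
    have m1 : ((Q (55 - n)).1 : ℝ) * (cL S T z n (G n) : ℝ) ≤
        (q (55 - n) * S) * (((1 - x) * gam t x n + ((n : ℝ) + 1) * t) * (S * S)) :=
      mul_le_mul q1 c1 h1' (h2'.trans q1)
    have m2 : (q (55 - n) * S) * (((1 - x) * gam t x n + ((n : ℝ) + 1) * t) * (S * S)) ≤
        ((Q (55 - n)).2 : ℝ) * (cU S T z n (G n) : ℝ) :=
      mul_le_mul q2 c2 (h1'.trans c1) ((h2'.trans q1).trans q2)
    rw [sum_range_succ, sL, sU]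
    push_cast
    constructor <;> nlinarith

def lowV (S : ℤ) (T z K v E : ℤ × ℤ) (Q G : ℕ → ℤ × ℤ) : ℤ :=
  sL S T z Q G 56 - 56 * K.2 * (S * S) + min (T.1 * E.1 * v.1) (T.2 * E.2 * v.1)
def uppV (S : ℤ) (T z K v E : ℤ × ℤ) (Q G : ℕ → ℤ × ℤ) : ℤ :=
  sU S T z Q G 56 - 56 * K.1 * (S * S) + max (T.1 * E.1 * v.2) (T.2 * E.2 * v.2)

/-- the certificate theorem -/
theorem phi_enc {S : ℕ} {T z K v E : ℤ × ℤ} {Q G : ℕ → ℤ × ℤ} {t x : ℝ} {n : ℕ} (hS : 0 < S)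
    (hx : x ≠ 1) (hr : gam t x 56 = 0)
    (hT : Enc S T t) (hz : Enc S z x) (hK : Enc S K (x / (x - 1) ^ 2)) (hv : Enc S v (1 / (1 - x)))
    (hE : Enc S E (gr t n).E) (hQ : ∀ j, j < 56 → Enc S (Q j) ((gr t n).Q j))
    (hG0 : G 0 = (0, 0)) (hz0 : 0 ≤ z.1) (hT0 : 0 ≤ T.1) (hE0 : 0 ≤ E.1)
    (h1 : gOK S T z K G 55 = true) (h2 : posOK S T z Q G 56 = true) :
    (lowV S T z K v E Q G : ℝ) ≤ PhiR t x n * (S * S * S) ∧
    PhiR t x n * (S * S * S) ≤ (uppV S T z K v E Q G : ℝ) := by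
  have hG := g_enc hS hG0 hT hz hz0 hK 55 h1
  have hs := s_enc (q := (gr t n).Q) hT hz (fun r hr => hG r (by omega)) hQ 56 le_rfl h2
  rw [phi_eq t x n hx hr]
  obtain ⟨s1, s2⟩ := hs
  obtain ⟨k1, k2⟩ := hK
  obtain ⟨v1, v2⟩ := hv
  obtain ⟨e1, e2⟩ := hE
  obtain ⟨t1, t2⟩ := hT
  have hS0 : (0 : ℝ) ≤ S := Nat.cast_nonneg _
  have hT0' : (0 : ℝ) ≤ T.1 := by exact_mod_cast hT0
  have hE0' : (0 : ℝ) ≤ E.1 := by exact_mod_cast hE0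
  have p1 : (T.1 : ℝ) * E.1 ≤ (t * S) * ((gr t n).E * S) :=
    mul_le_mul t1 e1 hE0' (hT0'.trans t1)
  have p2 : (t * S) * ((gr t n).E * S) ≤ (T.2 : ℝ) * E.2 :=
    mul_le_mul t2 e2 (hE0'.trans e1) ((hT0'.trans t1).trans t2)
  have p0 : 0 ≤ (t * S) * ((gr t n).E * S) := (mul_nonneg hT0' hE0').trans p1
  have hSS : (0 : ℝ) ≤ (S : ℝ) * S := mul_nonneg hS0 hS0
  have w1 : (v.1 : ℝ) * ((t * S) * ((gr t n).E * S)) ≤ (1 / (1 - x) * S) * ((t * S) * ((gr t n).E * S)) :=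
    mul_le_mul_of_nonneg_right v1 p0
  have w2 : (1 / (1 - x) * S) * ((t * S) * ((gr t n).E * S)) ≤ (v.2 : ℝ) * ((t * S) * ((gr t n).E * S)) :=
    mul_le_mul_of_nonneg_right v2 p0
  have w3 : min ((T.1 : ℝ) * E.1 * v.1) ((T.2 : ℝ) * E.2 * v.1) ≤ (v.1 : ℝ) * ((t * S) * ((gr t n).E * S)) := by
    rcases le_total 0 (v.1 : ℝ) with hs | hs
    · exact (min_le_left _ _).trans (by nlinarith)
    · exact (min_le_right _ _).trans (by nlinarith)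
  have w4 : (v.2 : ℝ) * ((t * S) * ((gr t n).E * S)) ≤ max ((T.1 : ℝ) * E.1 * v.2) ((T.2 : ℝ) * E.2 * v.2) := by
    rcases le_total 0 (v.2 : ℝ) with hs | hs
    · exact le_trans (by nlinarith) (le_max_right _ _)
    · exact le_trans (by nlinarith) (le_max_left _ _)
  have e : t * (gr t n).E / (1 - x) * (S * S * S) = (1 / (1 - x) * S) * ((t * S) * ((gr t n).E * S)) := by
    ring
  unfold lowV uppV
  push_cast
  rw [add_mul, sub_mul, e]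
  have k1' := mul_le_mul_of_nonneg_right k1 hSS
  have k2' := mul_le_mul_of_nonneg_right k2 hSS
  constructor
  · nlinarith
  · nlinarith

/-! ### the auxiliary numbers -/

theorem v_enc_lt {S : ℕ} {z v : ℤ × ℤ} {x : ℝ} (hS : 0 < S) (hz : Enc S z x) (h1 : z.2 < S)
    (h2 : 0 ≤ v.1) (h3 : v.1 * (S - z.1) ≤ S * S) (h4 : (S : ℤ) * S ≤ v.2 * (S - z.2)) :
    Enc S v (1 / (1 - x)) := by
  have hSR : (0 : ℝ) < S := by exact_mod_cast hS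
  obtain ⟨z1, z2⟩ := hz
  have h1' : (z.2 : ℝ) < S := by exact_mod_cast h1
  have h2' : (0 : ℝ) ≤ v.1 := by exact_mod_cast h2
  have h3' : (v.1 : ℝ) * (S - z.1) ≤ S * S := by exact_mod_cast h3
  have h4' : (S : ℝ) * S ≤ v.2 * (S - z.2) := by exact_mod_cast h4
  have hx : 0 < 1 - x := by
    have : x * S < 1 * S := by linarith
    have := lt_of_mul_lt_mul_right this hSR.le
    linarith
  have hv2 : (0 : ℝ) ≤ v.2 := by
    by_contra hc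
    push Not at hc
    have : (v.2 : ℝ) * (S - z.2) ≤ 0 := mul_nonpos_of_nonpos_of_nonneg hc.le (by linarith)
    nlinarith [mul_pos hSR hSR]
  rw [Enc, one_div, ← div_eq_inv_mul]
  constructor
  · rw [le_div_iff₀ hx]
    refine le_of_mul_le_mul_right ?_ hSR
    nlinarith [mul_le_mul_of_nonneg_left z1 h2']
  · rw [div_le_iff₀ hx]
    refine le_of_mul_le_mul_right ?_ hSR
    nlinarith [mul_le_mul_of_nonneg_left z2 hv2]

theorem K_enc_lt {S : ℕ} {z v K : ℤ × ℤ} {x : ℝ} (hS : 0 < S) (hz : Enc S z x)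
    (hv : Enc S v (1 / (1 - x))) (hx : x ≠ 1) (h1 : 0 ≤ z.1) (h2 : 0 ≤ v.1)
    (h3 : K.1 * (S * S) ≤ z.1 * v.1 ^ 2) (h4 : z.2 * v.2 ^ 2 ≤ K.2 * (S * S)) :
    Enc S K (x / (x - 1) ^ 2) := by
  have hSR : (0 : ℝ) < S := by exact_mod_cast hS
  have hSS : (0 : ℝ) < (S : ℝ) * S := mul_pos hSR hSR
  have h1x : 1 - x ≠ 0 := sub_ne_zero.mpr hx.symm
  have e : x / (x - 1) ^ 2 = x * (1 / (1 - x)) ^ 2 := by
    have : (x - 1) ^ 2 = (1 - x) ^ 2 := by ring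
    rw [this, one_div, inv_pow, div_eq_mul_inv]
  obtain ⟨z1, z2⟩ := hz
  obtain ⟨v1, v2⟩ := hv
  generalize 1 / (1 - x) = w at v1 v2 e
  have h1' : (0 : ℝ) ≤ z.1 := by exact_mod_cast h1
  have h2' : (0 : ℝ) ≤ v.1 := by exact_mod_cast h2
  have h3' : (K.1 : ℝ) * (S * S) ≤ z.1 * v.1 ^ 2 := by exact_mod_cast h3
  have h4' : (z.2 : ℝ) * v.2 ^ 2 ≤ K.2 * (S * S) := by exact_mod_cast h4
  have s1 : (v.1 : ℝ) ^ 2 ≤ (w * S) ^ 2 := pow_le_pow_left₀ h2' v1 2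
  have s2 : (w * S) ^ 2 ≤ (v.2 : ℝ) ^ 2 := pow_le_pow_left₀ (h2'.trans v1) v2 2
  have m1 : (z.1 : ℝ) * v.1 ^ 2 ≤ (x * S) * (w * S) ^ 2 := mul_le_mul z1 s1 (by positivity) (h1'.trans z1)
  have m2 : (x * S) * (w * S) ^ 2 ≤ (z.2 : ℝ) * v.2 ^ 2 :=
    mul_le_mul z2 s2 (by positivity) ((h1'.trans z1).trans z2)
  rw [Enc, e]
  constructor
  · refine le_of_mul_le_mul_right ?_ hSS
    nlinarith
  · refine le_of_mul_le_mul_right ?_ hSS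
    nlinarith

theorem v_enc_gt {S : ℕ} {z v : ℤ × ℤ} {x : ℝ} (hS : 0 < S) (hz : Enc S z x) (h1 : S < z.1)
    (h2 : v.2 ≤ 0) (h3 : (S : ℤ) * S ≤ v.1 * (S - z.1)) (h4 : v.2 * (S - z.2) ≤ S * S) :
    Enc S v (1 / (1 - x)) := by
  have hSR : (0 : ℝ) < S := by exact_mod_cast hS
  obtain ⟨z1, z2⟩ := hz
  have h1' : (S : ℝ) < z.1 := by exact_mod_cast h1
  have h2' : (v.2 : ℝ) ≤ 0 := by exact_mod_cast h2
  have h3' : (S : ℝ) * S ≤ v.1 * (S - z.1) := by exact_mod_cast h3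
  have h4' : (v.2 : ℝ) * (S - z.2) ≤ S * S := by exact_mod_cast h4
  have hx : 0 < x - 1 := by
    have : 1 * (S : ℝ) < x * S := by linarith
    have := lt_of_mul_lt_mul_right this hSR.le
    linarith
  have hv1 : (v.1 : ℝ) ≤ 0 := by
    by_contra hc
    push Not at hc
    have : (v.1 : ℝ) * (S - z.1) ≤ 0 := mul_nonpos_of_nonneg_of_nonpos hc.le (by linarith)
    nlinarith [mul_pos hSR hSR]
  have e : 1 / (1 - x) = - (1 / (x - 1)) := by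
    rw [show 1 - x = -(x - 1) by ring, one_div, one_div, inv_neg]
  rw [Enc, e, neg_mul, one_div, ← div_eq_inv_mul]
  constructor
  · rw [le_neg, div_le_iff₀ hx]
    refine le_of_mul_le_mul_right ?_ hSR
    nlinarith [mul_le_mul_of_nonpos_left z1 hv1]
  · rw [neg_le, le_div_iff₀ hx]
    refine le_of_mul_le_mul_right ?_ hSR
    nlinarith [mul_le_mul_of_nonpos_left z2 h2']

theorem K_enc_gt {S : ℕ} {z v K : ℤ × ℤ} {x : ℝ} (hS : 0 < S) (hz : Enc S z x)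
    (hv : Enc S v (1 / (1 - x))) (hx : x ≠ 1) (h1 : 0 ≤ z.1) (h2 : v.2 ≤ 0)
    (h3 : K.1 * (S * S) ≤ z.1 * v.2 ^ 2) (h4 : z.2 * v.1 ^ 2 ≤ K.2 * (S * S)) :
    Enc S K (x / (x - 1) ^ 2) := by
  have hSR : (0 : ℝ) < S := by exact_mod_cast hS
  have hSS : (0 : ℝ) < (S : ℝ) * S := mul_pos hSR hSR
  have h1x : 1 - x ≠ 0 := sub_ne_zero.mpr hx.symm
  have e : x / (x - 1) ^ 2 = x * (1 / (1 - x)) ^ 2 := by
    have : (x - 1) ^ 2 = (1 - x) ^ 2 := by ring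
    rw [this, one_div, inv_pow, div_eq_mul_inv]
  obtain ⟨z1, z2⟩ := hz
  obtain ⟨v1, v2⟩ := hv
  generalize 1 / (1 - x) = w at v1 v2 e
  have h1' : (0 : ℝ) ≤ z.1 := by exact_mod_cast h1
  have h2' : (v.2 : ℝ) ≤ 0 := by exact_mod_cast h2
  have h3' : (K.1 : ℝ) * (S * S) ≤ z.1 * v.2 ^ 2 := by exact_mod_cast h3
  have h4' : (z.2 : ℝ) * v.1 ^ 2 ≤ K.2 * (S * S) := by exact_mod_cast h4
  have s1 : (v.2 : ℝ) ^ 2 ≤ (w * S) ^ 2 := by nlinarith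
  have s2 : (w * S) ^ 2 ≤ (v.1 : ℝ) ^ 2 := by nlinarith
  have m1 : (z.1 : ℝ) * v.2 ^ 2 ≤ (x * S) * (w * S) ^ 2 := mul_le_mul z1 s1 (by positivity) (h1'.trans z1)
  have m2 : (x * S) * (w * S) ^ 2 ≤ (z.2 : ℝ) * v.1 ^ 2 :=
    mul_le_mul z2 s2 (by positivity) ((h1'.trans z1).trans z2)
  rw [Enc, e]
  constructor
  · refine le_of_mul_le_mul_right ?_ hSS
    nlinarith
  · refine le_of_mul_le_mul_right ?_ hSS
    nlinarith

end SA.H58
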