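import Pool.Agent.Helper58_SA.SignC
import Pool.Agent.Helper41_SA.State

/-! Module SIGN: signs of the growing mode at the end points. -/

namespace SA.H58

open Finset

/-- test: the triple is inside the tables -/
def kTest (Q : ℕ → ℤ × ℤ) (E : ℤ × ℤ) (q : List (ℕ × ℕ)) (e1 e2 : ℕ) : Bool :=
  (List.range 56).all (fun j => decide ((Q j).1 ≤ ((q.getD j (0, 0)).1 : ℤ)) &&
    decide (((q.getD j (0, 0)).2 : ℤ) ≤ (Q j).2)) && decide (E.1 ≤ (e1 : ℤ)) && decide ((e2 : ℤ) ≤ E.2)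

theorem stateIn_of {T : ℝ} {Q : ℕ → ℤ × ℤ} {E : ℤ × ℤ} {q : List (ℕ × ℕ)} {e1 e2 : ℕ}
    (h : SA.H41.EncS SS T 171 q e1 e2) (hk : kTest Q E q e1 e2 = true) : StateIn T Q E := by
  simp only [kTest, Bool.and_eq_true, List.all_eq_true, List.mem_range, decide_eq_true_iff] at hk
  obtain ⟨⟨hQ, hE1⟩, hE2⟩ := hk
  refine ⟨?_, ?_, ?_⟩
  · intro j hj
    obtain ⟨a, b⟩ := h.Q j hj
    obtain ⟨c, d⟩ := hQ j hj
    have c' : ((Q j).1 : ℝ) ≤ ((q.getD j (0, 0)).1 : ℝ) := by exact_mod_cast c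
    have d' : ((q.getD j (0, 0)).2 : ℝ) ≤ ((Q j).2 : ℝ) := by exact_mod_cast d
    exact ⟨by linarith, by linarith⟩
  · have a := h.E.1
    have c' : (E.1 : ℝ) ≤ (e1 : ℝ) := by exact_mod_cast hE1
    change (e1 : ℝ) ≤ _ at a
    linarith
  · have a := h.E.2
    have c' : (e2 : ℝ) ≤ (E.2 : ℝ) := by exact_mod_cast hE2
    change _ ≤ (e2 : ℝ) at a
    linarith

/-- inclusion of the tables -/
def incT (Q Q' : ℕ → ℤ × ℤ) (E E' : ℤ × ℤ) : Bool :=
  (List.range 56).all (fun j => decide ((Q' j).1 ≤ (Q j).1) && decide ((Q j).2 ≤ (Q' j).2))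
    && decide (E'.1 ≤ E.1) && decide (E.2 ≤ E'.2)

theorem stateIn_mono {T : ℝ} {Q Q' : ℕ → ℤ × ℤ} {E E' : ℤ × ℤ} (h : StateIn T Q E)
    (hk : incT Q Q' E E' = true) : StateIn T Q' E' := by
  simp only [incT, Bool.and_eq_true, List.all_eq_true, List.mem_range, decide_eq_true_iff] at hk
  obtain ⟨⟨hQ, hE1⟩, hE2⟩ := hk
  obtain ⟨g1, g2, g3⟩ := h
  refine ⟨fun j hj => ?_, ?_, ?_⟩
  · obtain ⟨a, b⟩ := g1 j hj
    obtain ⟨c, d⟩ := hQ j hj
    have c' : ((Q' j).1 : ℝ) ≤ ((Q j).1 : ℝ) := by exact_mod_cast c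
    have d' : ((Q j).2 : ℝ) ≤ ((Q' j).2 : ℝ) := by exact_mod_cast d
    exact ⟨by linarith, by linarith⟩
  · have c' : (E'.1 : ℝ) ≤ (E.1 : ℝ) := by exact_mod_cast hE1
    linarith
  · have c' : (E.2 : ℝ) ≤ (E'.2 : ℝ) := by exact_mod_cast hE2
    linarith

theorem inc_L : incT QL QX EL EX = true := by decide +kernel
theorem inc_H : incT QH QX EH EX = true := by decide +kernel

def pL : ℕ := Tm * 2 ^ 120
def pH : ℕ := (Tm + 1) * 2 ^ 120

theorem go_L : SA.H41.go SS pL pL (kTest QL EL) kap0list SA.H41.q0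
    (56 * SS - (56 * SS * SS / pL + 1)) (56 * SS - 56 * SS * SS / pL) = true := by decide +kernel

theorem go_H : SA.H41.go SS pH pH (kTest QH EH) kap0list SA.H41.q0
    (56 * SS - (56 * SS * SS / pH + 1)) (56 * SS - 56 * SS * SS / pH) = true := by decide +kernel


theorem SS_real : ((SS : ℕ) : ℝ) = 2 ^ 200 * 2 ^ 120 := by unfold SS; push_cast; norm_num

theorem SS_pos : 0 < SS := by unfold SS; positivity

theorem Tlo_SS : (SS : ℝ) * Tlo = (pL : ℝ) := by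
  rw [SS_real]
  unfold Tlo pL
  push_cast
  rw [mul_div_assoc', div_eq_iff (by positivity)]
  ring

theorem Thi_SS : (SS : ℝ) * Thi = (pH : ℝ) := by
  rw [SS_real]
  unfold Thi pH
  push_cast
  rw [mul_div_assoc', div_eq_iff (by positivity)]
  ring

theorem Tlo_le_Thi : Tlo ≤ Thi := by
  unfold Tlo Thi
  gcongr
  linarith

theorem state_L (hs : SortStmt) (hb : BarStmt) (ha : SimAStmt) : StateIn Tlo QL EL := by
  obtain ⟨q, e1, e2, h, hk⟩ := SA.H41.state171 hs hb ha (p := SS) (Tl := pL) (Th := pL)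
    le_rfl Tlo_le_Thi SS_pos (by unfold pL; norm_num [Tm]) Tlo_SS.ge Tlo_SS.le (kTest QL EL)
    (by decide +kernel) go_L
  exact stateIn_of h hk

theorem state_H (hs : SortStmt) (hb : BarStmt) (ha : SimAStmt) : StateIn Thi QH EH := by
  obtain ⟨q, e1, e2, h, hk⟩ := SA.H41.state171 hs hb ha (p := SS) (Tl := pH) (Th := pH)
    Tlo_le_Thi le_rfl SS_pos (by unfold pH; norm_num [Tm]) Thi_SS.ge Thi_SS.le (kTest QH EH)
    (by decide +kernel) go_H
  exact stateIn_of h hk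

/-! ### enclosures of the numbers -/

theorem enc_TL : Enc SS TL Tlo := by
  have h := Tlo_SS
  rw [mul_comm] at h
  unfold Enc TL
  rw [h]; unfold pL
  push_cast
  exact ⟨le_rfl, le_rfl⟩

theorem enc_TH : Enc SS TH Thi := by
  have h := Thi_SS
  rw [mul_comm] at h
  unfold Enc TH
  rw [h]; unfold pH
  push_cast
  exact ⟨le_rfl, le_rfl⟩

theorem enc_TX {T : ℝ} (h1 : Tlo ≤ T) (h2 : T ≤ Thi) : Enc SS TX T := by
  obtain ⟨a, -⟩ := enc_TL
  obtain ⟨-, b⟩ := enc_TH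
  have hS : (0 : ℝ) < SS := by exact_mod_cast SS_pos
  have c := mul_le_mul_of_nonneg_right h1 hS.le
  have d := mul_le_mul_of_nonneg_right h2 hS.le
  exact ⟨a.trans c, d.trans b⟩

theorem Tlo_pos : 0 < Tlo := by
  have := (T_num le_rfl Tlo_le_Thi).1
  linarith
theorem Thi_pos : 0 < Thi := by
  have := (T_num Tlo_le_Thi le_rfl).1
  linarith

theorem loc_L1 : (0 : ℝ) < ((znL : ℝ) / 10 ^ 76) ^ 57 - (znL : ℝ) / 10 ^ 76
    - Tlo * ((znL : ℝ) / 10 ^ 76 - 1) * (((znL : ℝ) / 10 ^ 76) ^ 57 - 57 * ((znL : ℝ) / 10 ^ 76) + 56) := by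
  unfold Tlo Tm znL; norm_num
theorem loc_L2 : (((znL : ℝ) + 1) / 10 ^ 76) ^ 57 - ((znL : ℝ) + 1) / 10 ^ 76
    - Tlo * (((znL : ℝ) + 1) / 10 ^ 76 - 1)
      * ((((znL : ℝ) + 1) / 10 ^ 76) ^ 57 - 57 * (((znL : ℝ) + 1) / 10 ^ 76) + 56) < (0 : ℝ) := by
  unfold Tlo Tm znL; norm_num
theorem loc_H1 : (0 : ℝ) < ((znH : ℝ) / 10 ^ 76) ^ 57 - (znH : ℝ) / 10 ^ 76
    - Thi * ((znH : ℝ) / 10 ^ 76 - 1) * (((znH : ℝ) / 10 ^ 76) ^ 57 - 57 * ((znH : ℝ) / 10 ^ 76) + 56) := by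
  unfold Thi Tm znH; norm_num
theorem loc_H2 : (((znH : ℝ) + 1) / 10 ^ 76) ^ 57 - ((znH : ℝ) + 1) / 10 ^ 76
    - Thi * (((znH : ℝ) + 1) / 10 ^ 76 - 1)
      * ((((znH : ℝ) + 1) / 10 ^ 76) ^ 57 - 57 * (((znH : ℝ) + 1) / 10 ^ 76) + 56) < (0 : ℝ) := by
  unfold Thi Tm znH; norm_num

theorem enc_zL {x0 z : ℝ} {th : ℂ} (h : Roots Tlo x0 z th) : Enc SS zL z := by
  obtain ⟨z1, z2⟩ := z_num h
  have a := root_gt Tlo_pos.le (by linarith) (by linarith) h.z_root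
    (by unfold znL; norm_num) loc_L1
  have b := root_lt Tlo_pos.le (by linarith) h.z_root
    (by positivity) (by unfold znL; norm_num) loc_L2
  have hS : (0 : ℝ) < SS := by exact_mod_cast SS_pos
  constructor
  · refine le_trans ?_ (mul_le_mul_of_nonneg_right a.le hS.le)
    rw [SS_real]; unfold zL znL; norm_num
  · refine le_trans (mul_le_mul_of_nonneg_right b.le hS.le) ?_
    rw [SS_real]; unfold zL znL; norm_num

theorem enc_zH {x0 z : ℝ} {th : ℂ} (h : Roots Thi x0 z th) : Enc SS zH z := by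
  obtain ⟨z1, z2⟩ := z_num h
  have a := root_gt Thi_pos.le (by linarith) (by linarith) h.z_root
    (by unfold znH; norm_num) loc_H1
  have b := root_lt Thi_pos.le (by linarith) h.z_root
    (by positivity) (by unfold znH; norm_num) loc_H2
  have hS : (0 : ℝ) < SS := by exact_mod_cast SS_pos
  constructor
  · refine le_trans ?_ (mul_le_mul_of_nonneg_right a.le hS.le)
    rw [SS_real]; unfold zH znH; norm_num
  · refine le_trans (mul_le_mul_of_nonneg_right b.le hS.le) ?_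
    rw [SS_real]; unfold zH znH; norm_num

theorem enc_xX {T x0 z : ℝ} {th : ℂ} (h : Roots T x0 z th) : Enc SS xX x0 := by
  obtain ⟨a, b⟩ := x0_num h
  have hS : (0 : ℝ) < SS := by exact_mod_cast SS_pos
  constructor
  · refine le_trans ?_ (mul_le_mul_of_nonneg_right a hS.le)
    rw [SS_real]; unfold xX xU; norm_num
  · refine le_trans (mul_le_mul_of_nonneg_right b hS.le) ?_
    rw [SS_real]; unfold xX xU; norm_num

/-! ### values at time 171 -/

theorem neg_L (hs : SortStmt) (hb : BarStmt) (ha : SimAStmt) {x0 z : ℝ} {th : ℂ}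
    (h : Roots Tlo x0 z th) : PhiR Tlo z 171 < 0 := by
  obtain ⟨hQ, hE⟩ := state_L hs hb ha
  obtain ⟨z1, z2⟩ := z_num h
  have hz := enc_zL h
  have hz1 : z ≠ 1 := ne_of_lt (by linarith)
  have hv := v_enc_lt (v := vL) SS_pos hz (by decide +kernel) (by decide +kernel) (by decide +kernel)
    (by decide +kernel)
  have hK := K_enc_lt (K := KL) SS_pos hz hv hz1 (by decide +kernel) (by decide +kernel)
    (by decide +kernel) (by decide +kernel)
  have key := (phi_enc (n := 171) SS_pos hz1 h.z_root enc_TL hz hK hv hE hQ rfl (by decide +kernel)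
    (by decide +kernel) (by decide +kernel) gOK_L pos_L).2
  have h1 : ((uppV SS TL zL KL vL EL QL gvL : ℤ) : ℝ) < 0 := by exact_mod_cast val_L
  have hS : (0 : ℝ) < (SS : ℝ) * SS * SS := by
    have : (0 : ℝ) < SS := by exact_mod_cast SS_pos
    positivity
  by_contra hc
  push Not at hc
  have := mul_nonneg hc hS.le
  linarith

theorem pos_H' (hs : SortStmt) (hb : BarStmt) (ha : SimAStmt) {x0 z : ℝ} {th : ℂ}
    (h : Roots Thi x0 z th) : 5 / 10 ^ 56 ≤ PhiR Thi z 171 := by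
  obtain ⟨hQ, hE⟩ := state_H hs hb ha
  obtain ⟨z1, z2⟩ := z_num h
  have hz := enc_zH h
  have hz1 : z ≠ 1 := ne_of_lt (by linarith)
  have hv := v_enc_lt (v := vH) SS_pos hz (by decide +kernel) (by decide +kernel) (by decide +kernel)
    (by decide +kernel)
  have hK := K_enc_lt (K := KH) SS_pos hz hv hz1 (by decide +kernel) (by decide +kernel)
    (by decide +kernel) (by decide +kernel)
  have key := (phi_enc (n := 171) SS_pos hz1 h.z_root enc_TH hz hK hv hE hQ rfl (by decide +kernel)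
    (by decide +kernel) (by decide +kernel) gOK_H pos_H).1
  have h1 : 5 * ((SS : ℝ) * SS * SS) ≤ ((lowV SS TH zH KH vH EH QH gvH : ℤ) : ℝ) * 10 ^ 56 := by
    exact_mod_cast val_H
  have hS : (0 : ℝ) < (SS : ℝ) * SS * SS := by
    have : (0 : ℝ) < SS := by exact_mod_cast SS_pos
    positivity
  rw [div_le_iff₀ (by positivity)]
  refine le_of_mul_le_mul_right ?_ hS
  nlinarith

theorem val_X (hs : SortStmt) (hb : BarStmt) (ha : SimAStmt) {T x0 z : ℝ} {th : ℂ}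
    (hT : T = Tlo ∨ T = Thi) (h : Roots T x0 z th) :
    PhiR T x0 171 ≤ -1 ∧ -1000 ≤ PhiR T x0 171 := by
  obtain ⟨hQ, hE⟩ : StateIn T QX EX := by
    rcases hT with rfl | rfl
    · exact stateIn_mono (state_L hs hb ha) inc_L
    · exact stateIn_mono (state_H hs hb ha) inc_H
  obtain ⟨hT1, hT2⟩ : Tlo ≤ T ∧ T ≤ Thi := by
    rcases hT with rfl | rfl
    · exact ⟨le_rfl, Tlo_le_Thi⟩
    · exact ⟨Tlo_le_Thi, le_rfl⟩
  obtain ⟨z1, z2⟩ := x0_num h
  have hz := enc_xX h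
  have hz1 : x0 ≠ 1 := ne_of_gt (by linarith)
  have hv := v_enc_gt (v := vX) SS_pos hz (by decide +kernel) (by decide +kernel) (by decide +kernel)
    (by decide +kernel)
  have hK := K_enc_gt (K := KX) SS_pos hz hv hz1 (by decide +kernel) (by decide +kernel)
    (by decide +kernel) (by decide +kernel)
  obtain ⟨k1, k2⟩ := phi_enc (n := 171) SS_pos hz1 h.x0_root (enc_TX hT1 hT2) hz hK hv hE hQ rfl
    (by decide +kernel) (by decide +kernel) (by decide +kernel) gOK_X pos_X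
  have h1 : ((uppV SS TX xX KX vX EX QX GX' : ℤ) : ℝ) ≤ - ((SS : ℝ) * SS * SS) := by
    exact_mod_cast val_X1
  have h2 : - 1000 * ((SS : ℝ) * SS * SS) ≤ ((lowV SS TX xX KX vX EX QX GX' : ℤ) : ℝ) := by
    exact_mod_cast val_X2
  have hS : (0 : ℝ) < (SS : ℝ) * SS * SS := by
    have : (0 : ℝ) < SS := by exact_mod_cast SS_pos
    positivity
  constructor
  · refine le_of_mul_le_mul_right ?_ hS
    linarith
  · refine le_of_mul_le_mul_right ?_ hS
    linarith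

theorem azc_pos : 0 < azc := by unfold azc; norm_num
theorem a0c_neg : a0c < 0 := by unfold a0c; norm_num

/-- the denominators -/
theorem C_pos (hs : SortStmt) (hb : BarStmt) (ha : SimAStmt) (hPd : PdStmt) (hM : ModRStmt)
    {T x0 z : ℝ} {th : ℂ} (hT : T = Tlo ∨ T = Thi) (h : Roots T x0 z th) :
    0 < Cn T x0 1525 ∧ x0 ^ 1354 * Cn T x0 1525 ≤ 1 := by
  obtain ⟨hT1, hT2⟩ : Tlo ≤ T ∧ T ≤ Thi := by
    rcases hT with rfl | rfl
    · exact ⟨le_rfl, Tlo_le_Thi⟩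
    · exact ⟨Tlo_le_Thi, le_rfl⟩
  obtain ⟨v1, v2⟩ := val_X hs hb ha hT h
  obtain ⟨z1, z2⟩ := x0_num h
  obtain ⟨t1, -⟩ := T_num hT1 hT2
  obtain ⟨hval, -, hk⟩ := ha T hT1 hT2
  have q : x0 ^ 1354 * PhiR T x0 1525 = PhiR T x0 171 :=
    quiet hPd hM (T := T) (x := x0) (by linarith : (0 : ℝ) < T).ne' (by linarith : (0 : ℝ) < x0).ne'
    (ne_of_gt (by linarith)) h.x0_root hval hk 1354 le_rfl
  have hx : (0 : ℝ) < x0 ^ 1354 := pow_pos (by linarith) _
  have e : x0 ^ 1354 * Cn T x0 1525 = a0c * PhiR T x0 171 := by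
    rw [Cn, ← q]; ring
  have hpos : 0 < x0 ^ 1354 * Cn T x0 1525 := by
    rw [e]; exact mul_pos_of_neg_of_neg a0c_neg (by linarith)
  refine ⟨(mul_pos_iff_of_pos_left hx).mp hpos, ?_⟩
  rw [e]
  have a1 : (-1 : ℝ) / 1000 ≤ a0c := by unfold a0c; norm_num
  nlinarith [a0c_neg]

/-- N12 -/
theorem sign (hs : SortStmt) (hb : BarStmt) (ha : SimAStmt) (hPd : PdStmt) (hM : ModRStmt) :
    SignStmt := by
  constructor
  · intro x0 z th h
    obtain ⟨c1, -⟩ := C_pos hs hb ha hPd hM (Or.inl rfl) h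
    have n1 := neg_L hs hb ha h
    obtain ⟨z1, z2⟩ := z_num h
    obtain ⟨hval, -, hk⟩ := ha Tlo le_rfl Tlo_le_Thi
    have q : z ^ 1354 * PhiR Tlo z 1525 = PhiR Tlo z 171 :=
      quiet hPd hM (T := Tlo) (x := z) Tlo_pos.ne' (by linarith : (0 : ℝ) < z).ne'
      (ne_of_lt (by linarith)) h.z_root hval hk 1354 le_rfl
    have hx : (0 : ℝ) < z ^ 1354 := pow_pos (by linarith) _
    have hneg : PhiR Tlo z 1525 < 0 := by
      by_contra hc
      push Not at hc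
      have := mul_nonneg hx.le hc
      linarith
    unfold ztn zn
    exact div_neg_of_neg_of_pos (mul_neg_of_pos_of_neg azc_pos hneg) c1
  · intro x0 z th h
    obtain ⟨c1, c2⟩ := C_pos hs hb ha hPd hM (Or.inr rfl) h
    have n1 := pos_H' hs hb ha h
    obtain ⟨z1, z2⟩ := z_num h
    obtain ⟨x1, x2⟩ := x0_num h
    obtain ⟨hval, -, hk⟩ := ha Thi Tlo_le_Thi le_rfl
    have q : z ^ 1354 * PhiR Thi z 1525 = PhiR Thi z 171 :=
      quiet hPd hM (T := Thi) (x := z) Thi_pos.ne' (by linarith : (0 : ℝ) < z).ne'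
      (ne_of_lt (by linarith)) h.z_root hval hk 1354 le_rfl
    have hx : (0 : ℝ) < z ^ 1354 := pow_pos (by linarith) _
    have hx0 : (0 : ℝ) < x0 ^ 1354 := pow_pos (by linarith) _
    have a1 : (3 : ℝ) / 10 ^ 7 ≤ azc := by unfold azc; norm_num
    -- z^1354 * zn ≥ 15 / 10^63
    have e1 : (15 : ℝ) / 10 ^ 63 ≤ z ^ 1354 * zn Thi z 1525 := by
      have : z ^ 1354 * zn Thi z 1525 = azc * PhiR Thi z 171 := by rw [zn, ← q]; ring
      rw [this]
      calc (15 : ℝ) / 10 ^ 63 = 3 / 10 ^ 7 * (5 / 10 ^ 56) := by norm_num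
        _ ≤ _ := mul_le_mul a1 n1 (by norm_num) azc_pos.le
    have hr : (1.067 : ℝ) * z ≤ x0 := by linarith
    have hr2 : (1.067 : ℝ) ^ 1354 * z ^ 1354 ≤ x0 ^ 1354 := by
      rw [← mul_pow]
      exact pow_le_pow_left₀ (by linarith) hr _
    have h2 : (2 : ℝ) ^ 123 ≤ (1.067 : ℝ) ^ 1354 := by
      calc (2 : ℝ) ^ 123 ≤ ((1.067 : ℝ) ^ 11) ^ 123 := pow_le_pow_left₀ (by norm_num) (by norm_num) _
        _ = (1.067 : ℝ) ^ 1353 := by rw [← pow_mul]
        _ ≤ (1.067 : ℝ) ^ 1354 := pow_le_pow_right₀ (by norm_num) (by norm_num)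
    unfold ztn
    rw [lt_div_iff₀ c1]
    have h3 : (2 : ℝ) ^ 123 * z ^ 1354 * Cn Thi x0 1525 ≤ 1 := by
      calc (2 : ℝ) ^ 123 * z ^ 1354 * Cn Thi x0 1525
          ≤ (1.067 : ℝ) ^ 1354 * z ^ 1354 * Cn Thi x0 1525 := by gcongr
        _ ≤ x0 ^ 1354 * Cn Thi x0 1525 := by gcongr
        _ ≤ 1 := c2
    refine lt_of_mul_lt_mul_left ?_ hx.le
    refine lt_of_lt_of_le ?_ e1
    have h4 : z ^ 1354 * (1 / 10 ^ 40 * Cn Thi x0 1525)
        = (1 / (10 ^ 40 * 2 ^ 123)) * ((2 : ℝ) ^ 123 * z ^ 1354 * Cn Thi x0 1525) := by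
      field_simp
    rw [h4]
    calc (1 / (10 ^ 40 * 2 ^ 123)) * ((2 : ℝ) ^ 123 * z ^ 1354 * Cn Thi x0 1525)
        ≤ (1 / (10 ^ 40 * 2 ^ 123)) * 1 := by gcongr
      _ < 15 / 10 ^ 63 := by norm_num

end SA.H58
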